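import Pool.Agent.N778.CH.Choose

/-!
# Choice theorem for blocks: in every block at most one element has to be left out
-/

set_option autoImplicit false

open Set

namespace Pool.Agent.N778.CH

variable {R E : Type*} [CommRing R] [Field E] [Algebra R E] [FaithfulSMul R E]

/-- the family at level `k` -/
def fam {B ω : Type*} (s u : B → ℕ → E) (w : ω → E) (k : ℕ) (ch : B → ℕ → ℕ) : (B × ℕ) ⊕ ω → E :=
  Sum.elim (fun p => if p.2 < k then u p.1 (ch p.1 p.2) else s p.1 p.2) w

theorem step {B ω : Type*} [Countable B] [Countable ω] {s u : B → ℕ → E} {w : ω → E}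
    (hsu : ∀ b k, s b k ∈ (MM R E).closure (u b '' Iic (k + 1) ∪ range w)) (k : ℕ) (ch : B → ℕ → ℕ) (pend : B → ℕ)
    (h1 : AlgebraicIndependent R (fam s u w k ch)) (h2 : ∀ b, ∀ m ≤ k, m = pend b ∨ ∃ j < k, ch b j = m) :
    ∃ (ch' : B → ℕ → ℕ) (pend' : B → ℕ), (∀ b, ∀ j < k, ch' b j = ch b j) ∧
      AlgebraicIndependent R (fam s u w (k + 1) ch') ∧ ∀ b, ∀ m ≤ k + 1, m = pend' b ∨ ∃ j < k + 1, ch' b j = m := by
  classical
  let f := fam s u w k ch
  let J : Set ((B × ℕ) ⊕ ω) := {i | ∀ b, i ≠ Sum.inl (b, k)}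
  let a : (B × ℕ) ⊕ ω → E := Sum.elim (fun p => if p.2 = k then u p.1 (pend p.1) else f (Sum.inl p)) w
  let b' : (B × ℕ) ⊕ ω → E := Sum.elim (fun p => if p.2 = k then u p.1 (k + 1) else f (Sum.inl p)) w
  have hJ : ∀ i ∈ J, a i = f i ∧ b' i = f i := by
    rintro (⟨b, j⟩ | i) hi
    · have hj : j ≠ k := fun hjk => hi b (by rw [hjk])
      simp [a, b', hj]
    · exact ⟨rfl, rfl⟩
  have hmem : ∀ i, f i ∈ (MM R E).closure ({a i, b' i} ∪ f '' J) := by
    intro i
    by_cases hi : i ∈ J
    · exact Matroid.subset_closure (MM R E) _ (subset_univ _) (Or.inr ⟨i, hi, rfl⟩)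
    · have h3 : ∃ b, i = Sum.inl (b, k) := by
        by_contra h4
        push Not at h4
        exact hi h4
      obtain ⟨b, rfl⟩ := h3
      have e1 : f (Sum.inl (b, k)) = s b k := by simp [f, fam]
      rw [e1]
      refine Matroid.closure_subset_closure (MM R E) ?_ (hsu b k)
      rintro z (⟨m, hm, rfl⟩ | ⟨j, rfl⟩)
      · rw [mem_Iic] at hm
        rcases Nat.lt_or_ge k m with h4 | h4
        · have h5 : m = k + 1 := by omega
          subst h5
          left
          right
          simp [b']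
        · rcases h2 b m h4 with rfl | ⟨j, hj, rfl⟩
          · left
            left
            simp [a]
          · right
            refine ⟨Sum.inl (b, j), fun b₁ h5 => ?_, ?_⟩
            · have h6 : j = k := congrArg Prod.snd (Sum.inl_injective h5)
              omega
            · simp [f, fam, hj]
      · exact Or.inr ⟨Sum.inr j, ⟨fun b₁ h5 => by simp at h5, rfl⟩⟩
  obtain ⟨c, hc⟩ := choose_indep h1 J hJ hmem
  refine ⟨fun b j => if j = k then (if c (Sum.inl (b, k)) then pend b else k + 1) else ch b j,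
    fun b => if c (Sum.inl (b, k)) then k + 1 else pend b, fun b j hj => ?_, ?_, fun b m hm => ?_⟩
  · exact if_neg (Nat.ne_of_lt hj)
  · convert hc using 1
    funext i
    rcases i with ⟨b, j⟩ | i
    · by_cases hj : j = k
      · subst hj
        by_cases hcb : c (Sum.inl (b, j)) = true
        · simp [fam, a, b', hcb]
        · simp [fam, a, b', hcb]
      · have h3 : (j ≤ k) ↔ (j < k) := by omega
        simp [fam, a, b', f, hj, h3]
    · simp [fam, a, b']
  · by_cases hcb : c (Sum.inl (b, k)) = true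
    · simp only [hcb, if_true]
      rcases Nat.lt_or_ge k m with h4 | h4
      · exact Or.inl (by omega)
      · rcases h2 b m h4 with rfl | ⟨j, hj, hj2⟩
        · exact Or.inr ⟨k, by omega, by simp⟩
        · exact Or.inr ⟨j, by omega, by rw [if_neg (by omega)]; exact hj2⟩
    · simp only [hcb]
      rcases Nat.lt_or_ge k m with h4 | h4
      · exact Or.inr ⟨k, by omega, by simp; omega⟩
      · rcases h2 b m h4 with rfl | ⟨j, hj, hj2⟩
        · exact Or.inl (by simp)
        · exact Or.inr ⟨j, by omega, by rw [if_neg (by omega)]; exact hj2⟩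

/-- **The choice theorem for blocks** -/
theorem block_indep {B ω : Type*} [Countable B] [Countable ω] {s u : B → ℕ → E} {w : ω → E}
    (hs : AlgebraicIndependent R (Sum.elim (fun p : B × ℕ => s p.1 p.2) w))
    (hsu : ∀ b k, s b k ∈ (MM R E).closure (u b '' Iic (k + 1) ∪ range w)) :
    ∃ C : B → Set ℕ, (∀ b, (C b)ᶜ.Subsingleton) ∧
      AlgebraicIndependent R (Sum.elim (fun p : {p : B × ℕ // p.2 ∈ C p.1} => u p.1.1 p.1.2) w) := by
  classical
  let St : ℕ → Type _ := fun k => {q : (B → ℕ → ℕ) × (B → ℕ) // AlgebraicIndependent R (fam s u w k q.1) ∧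
    ∀ b, ∀ m ≤ k, m = q.2 b ∨ ∃ j < k, q.1 b j = m}
  have h0 : AlgebraicIndependent R (fam s u w 0 (fun _ _ => 0)) := by
    convert hs using 1
    funext i
    rcases i with p | i <;> simp [fam]
  let seq : (k : ℕ) → St k := fun k => Nat.rec (motive := St)
    ⟨(fun _ _ => 0, fun _ => 0), h0, fun b m hm => Or.inl (Nat.le_zero.1 hm)⟩
    (fun k q => ⟨((step hsu k q.1.1 q.1.2 q.2.1 q.2.2).choose,
      (step hsu k q.1.1 q.1.2 q.2.1 q.2.2).choose_spec.choose),
      (step hsu k q.1.1 q.1.2 q.2.1 q.2.2).choose_spec.choose_spec.2⟩) k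
  have hseq : ∀ k b j, j < k → (seq (k + 1)).1.1 b j = (seq k).1.1 b j := fun k b j hj =>
    (step hsu k (seq k).1.1 (seq k).1.2 (seq k).2.1 (seq k).2.2).choose_spec.choose_spec.1 b j hj
  have hst : ∀ b j k, j + 1 ≤ k → (seq k).1.1 b j = (seq (j + 1)).1.1 b j := by
    intro b j k hk
    induction k, hk using Nat.le_induction with
    | base => rfl
    | succ k hk ih => rw [hseq k b j (by omega), ih]
  let CH : B → ℕ → ℕ := fun b j => (seq (j + 1)).1.1 b j
  have hfin : AlgebraicIndependent R (Sum.elim (fun p : B × ℕ => u p.1 (CH p.1 p.2)) w) := by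
    refine algebraicIndependent_of_finite_type fun T hT => ?_
    let k : ℕ := hT.toFinset.sup (fun i => Sum.elim (fun p : B × ℕ => p.2) (fun _ => 0) i) + 1
    have h1 := (seq k).2.1.comp (Subtype.val : T → (B × ℕ) ⊕ ω) Subtype.val_injective
    convert h1 using 1
    funext i
    obtain ⟨i, hi⟩ := i
    rcases i with ⟨b, j⟩ | i
    · have h2 : j < k := Nat.lt_succ_of_le
        (Finset.le_sup (f := fun i => Sum.elim (fun p : B × ℕ => p.2) (fun _ => 0) i) (hT.mem_toFinset.2 hi))
      simp only [Function.comp_apply, fam, Sum.elim_inl, h2, if_true]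
      rw [hst b j k (by omega)]
    · rfl
  refine ⟨fun b => range (CH b), fun b m hm m' hm' => ?_, ?_⟩
  · have h1 : ∀ m, m ∈ (range (CH b))ᶜ → ∀ k, m ≤ k → m = (seq k).1.2 b := by
      intro m hm k hk
      rcases (seq k).2.2 b m hk with h | ⟨j, hj, hj2⟩
      · exact h
      · exfalso
        exact hm ⟨j, by rw [← hj2, hst b j k (by omega)]⟩
    exact (h1 m hm (max m m') (le_max_left _ _)).trans (h1 m' hm' (max m m') (le_max_right _ _)).symm
  · choose g hg using fun p : {p : B × ℕ // p.2 ∈ range (CH p.1)} => p.2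
    have h1 := hfin.comp (Sum.map (fun p : {p : B × ℕ // p.2 ∈ range (CH p.1)} => (p.1.1, g p)) id) (by
      refine Function.Injective.sumMap ?_ Function.injective_id
      rintro ⟨⟨b, m⟩, hp⟩ ⟨⟨b', m'⟩, hp'⟩ hab
      have e1 : b = b' := congrArg Prod.fst hab
      subst e1
      have e2 : g ⟨(b, m), hp⟩ = g ⟨(b, m'), hp'⟩ := congrArg Prod.snd hab
      have e3 := hg ⟨(b, m), hp⟩
      have e4 := hg ⟨(b, m'), hp'⟩
      rw [e2] at e3
      have e5 : m = m' := e3.symm.trans e4
      subst e5
      rfl)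
    convert h1 using 1
    funext i
    rcases i with p | i
    · simp only [Sum.elim_inl, Function.comp_apply, Sum.map_inl]
      rw [hg p]
    · rfl

end Pool.Agent.N778.CH
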