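import Mathlib

/-!
# Choice theorem: an algebraically independent family can be replaced, one element out of two at a time
-/

set_option autoImplicit false

open Set

namespace Pool.Agent.N778.CH

variable {R E : Type*} [CommRing R] [Field E] [Algebra R E] [FaithfulSMul R E]

/-- the matroid of algebraic independence -/
noncomputable abbrev MM (R E : Type*) [CommRing R] [Field E] [Algebra R E] [FaithfulSMul R E] : Matroid E :=
  AlgebraicIndependent.matroid R E

lemma mem_MM {S : Set E} {x : E} : x ∈ (MM R E).closure S ↔ IsAlgebraic (Algebra.adjoin R S) x := by
  rw [AlgebraicIndependent.matroid_closure_eq]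
  exact Iff.rfl

/-- the replacement of one element -/
theorem update_indep {ι : Type*} [DecidableEq ι] {f : ι → E} (hf : AlgebraicIndependent R f) (i : ι) (x y : E)
    (h : f i ∈ (MM R E).closure ({x, y} ∪ f '' {i}ᶜ)) :
    AlgebraicIndependent R (Function.update f i x) ∨ AlgebraicIndependent R (Function.update f i y) := by
  by_contra hcon
  push Not at hcon
  have h1 := (AlgebraicIndependent.iff_transcendental_adjoin_image i).1 hf
  have key : ∀ z : E, ¬ AlgebraicIndependent R (Function.update f i z) → z ∈ (MM R E).closure (f '' {i}ᶜ) := by
    intro z hz
    rw [mem_MM]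
    by_contra hz2
    refine hz ((AlgebraicIndependent.iff_transcendental_adjoin_image i).2 ⟨?_, ?_⟩)
    · have e1 : (fun j : {j // j ≠ i} => Function.update f i z j) = fun j : {j // j ≠ i} => f j := by
        funext j
        exact Function.update_of_ne j.2 _ _
      rw [e1]
      exact h1.1
    · have e2 : Function.update f i z '' {i}ᶜ = f '' {i}ᶜ := by
        refine image_congr fun j hj => ?_
        exact Function.update_of_ne hj _ _
      rw [e2, Function.update_self]
      exact hz2
  have h2 : ({x, y} ∪ f '' {i}ᶜ : Set E) ⊆ (MM R E).closure (f '' {i}ᶜ) := by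
    rintro z ((rfl | rfl) | hz)
    · exact key _ hcon.1
    · exact key _ hcon.2
    · exact Matroid.subset_closure (MM R E) _ (subset_univ _) hz
  have h3 := Matroid.closure_subset_closure_of_subset_closure h2 h
  exact h1.2 (mem_MM.1 h3)

/-- **The choice theorem** -/
theorem choose_indep {ι : Type*} [Countable ι] {s a b : ι → E} (hs : AlgebraicIndependent R s) (J : Set ι)
    (hJ : ∀ j ∈ J, a j = s j ∧ b j = s j) (h : ∀ i, s i ∈ (MM R E).closure ({a i, b i} ∪ s '' J)) :
    ∃ c : ι → Bool, AlgebraicIndependent R (fun i => if c i then a i else b i) := by
  classical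
  obtain ⟨e, he⟩ := exists_injective_nat ι
  let G : ℕ → (ι → Bool) → ι → E := fun k c i => if e i < k then (if c i then a i else b i) else s i
  have hstep : ∀ (k : ℕ) (c : ι → Bool), AlgebraicIndependent R (G k c) →
      ∃ c' : ι → Bool, (∀ i, e i < k → c' i = c i) ∧ AlgebraicIndependent R (G (k + 1) c') := by
    intro k c hc
    by_cases hk : ∃ i, e i = k
    · obtain ⟨i, hi⟩ := hk
      have hGi : G k c i = s i := by simp [G, hi]
      have hgen : ∀ v : Bool, G (k + 1) (Function.update c i v) =
          Function.update (G k c) i (if v then a i else b i) := by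
        intro v
        funext j
        by_cases hji : j = i
        · subst hji
          simp [G, hi]
        · rw [Function.update_of_ne hji]
          have h1 : e j ≠ k := fun h' => hji (he (h'.trans hi.symm))
          have h2 : (e j < k + 1) ↔ (e j < k) := by omega
          simp only [G, h2, Function.update_of_ne hji]
      have hGJ : ∀ j ∈ J, G k c j = s j := by
        intro j hj
        obtain ⟨h1, h2⟩ := hJ j hj
        simp only [G]
        split_ifs
        · exact h1
        · exact h2
        · rfl
      have hmain : AlgebraicIndependent R (Function.update (G k c) i (a i)) ∨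
          AlgebraicIndependent R (Function.update (G k c) i (b i)) := by
        by_cases hiJ : i ∈ J
        · left
          rw [(hJ i hiJ).1, ← hGi, Function.update_eq_self]
          exact hc
        · refine update_indep hc i _ _ ?_
          rw [hGi]
          refine Matroid.closure_subset_closure (MM R E) ?_ (h i)
          rintro z (hz | ⟨j, hj, rfl⟩)
          · exact Or.inl hz
          · refine Or.inr ⟨j, fun hji => ?_, hGJ j hj⟩
            rw [mem_singleton_iff] at hji
            exact hiJ (hji ▸ hj)
      rcases hmain with h1 | h1
      · refine ⟨Function.update c i true, fun j hj => ?_, ?_⟩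
        · exact Function.update_of_ne (fun h' => by subst h'; omega) _ _
        · rw [hgen]
          simpa using h1
      · refine ⟨Function.update c i false, fun j hj => ?_, ?_⟩
        · exact Function.update_of_ne (fun h' => by subst h'; omega) _ _
        · rw [hgen]
          simpa using h1
    · push Not at hk
      refine ⟨c, fun _ _ => rfl, ?_⟩
      have h1 : G (k + 1) c = G k c := by
        funext j
        have h2 : (e j < k + 1) ↔ (e j < k) := by
          have := hk j
          omega
        simp only [G, h2]
      rw [h1]
      exact hc
  have h0 : AlgebraicIndependent R (G 0 fun _ => true) := by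
    have : G 0 (fun _ => true) = s := by
      funext i
      simp [G]
    rw [this]
    exact hs
  let seq : (k : ℕ) → {c : ι → Bool // AlgebraicIndependent R (G k c)} := fun k =>
    Nat.rec ⟨fun _ => true, h0⟩ (fun k c => ⟨(hstep k c.1 c.2).choose, (hstep k c.1 c.2).choose_spec.2⟩) k
  have hseq : ∀ k i, e i < k → (seq (k + 1)).1 i = (seq k).1 i := fun k i hi =>
    (hstep k (seq k).1 (seq k).2).choose_spec.1 i hi
  have hst : ∀ i k, e i + 1 ≤ k → (seq k).1 i = (seq (e i + 1)).1 i := by
    intro i k hk
    induction k, hk using Nat.le_induction with
    | base => rfl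
    | succ k hk ih => rw [hseq k i (by omega), ih]
  refine ⟨fun i => (seq (e i + 1)).1 i, ?_⟩
  refine algebraicIndependent_of_finite_type fun T hT => ?_
  let k : ℕ := hT.toFinset.sup e + 1
  have h1 := (seq k).2.comp (Subtype.val : T → ι) Subtype.val_injective
  convert h1 using 1
  funext i
  have h2 : e i.1 < k := Nat.lt_succ_of_le (Finset.le_sup (f := e) (hT.mem_toFinset.2 i.2))
  simp only [Function.comp_apply, G, h2, if_true]
  rw [hst i.1 k (by omega)]

end Pool.Agent.N778.CH
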