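import Pool.Agent.N778.CH.Choose

/-!
# Choice theorem for stars: blocks which consist of a centre and leaves
-/

set_option autoImplicit false

open Set

namespace Pool.Agent.N778.CH

variable {R E : Type*} [CommRing R] [Field E] [Algebra R E] [FaithfulSMul R E]

/-- the family at level `k` -/
def sfam {Λ ω B : Type*} (e : Λ → ℕ) (s : Λ → E) (U : B ⊕ Λ → E) (w : ω → E) (k : ℕ) (ch : Λ → B ⊕ Λ) : Λ ⊕ ω → E :=
  Sum.elim (fun l => if e l < k then U (ch l) else s l) w

theorem sstep {B Λ ω : Type*} {e : Λ → ℕ} (he : Function.Injective e) {β : Λ → B} {s : Λ → E} {U : B ⊕ Λ → E} {w : ω → E}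
    (hsu : ∀ l, s l ∈ (MM R E).closure ({U (Sum.inl (β l)), U (Sum.inr l)} ∪ range w)) (k : ℕ) (ch : Λ → B ⊕ Λ)
    (pend : B → B ⊕ Λ) (h1 : AlgebraicIndependent R (sfam e s U w k ch))
    (h2 : ∀ b, (Sum.inl b = pend b ∨ ∃ l, e l < k ∧ ch l = Sum.inl b) ∧
      ∀ m, β m = b → e m < k → (Sum.inr m = pend b ∨ ∃ l, e l < k ∧ ch l = Sum.inr m)) :
    ∃ (ch' : Λ → B ⊕ Λ) (pend' : B → B ⊕ Λ), (∀ l, e l < k → ch' l = ch l) ∧
      AlgebraicIndependent R (sfam e s U w (k + 1) ch') ∧
      ∀ b, (Sum.inl b = pend' b ∨ ∃ l, e l < k + 1 ∧ ch' l = Sum.inl b) ∧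
        ∀ m, β m = b → e m < k + 1 → (Sum.inr m = pend' b ∨ ∃ l, e l < k + 1 ∧ ch' l = Sum.inr m) := by
  classical
  by_cases hk : ∃ l₀, e l₀ = k
  swap
  · push Not at hk
    have h3 : ∀ l, e l < k + 1 ↔ e l < k := fun l => by
      have := hk l
      omega
    refine ⟨ch, pend, fun _ _ => rfl, ?_, ?_⟩
    · have : sfam e s U w (k + 1) ch = sfam e s U w k ch := by
        funext i
        rcases i with l | i
        · simp only [sfam, Sum.elim_inl, h3]
        · rfl
      rw [this]
      exact h1
    · simpa only [h3] using h2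
  · obtain ⟨l₀, hl₀⟩ := hk
    set f := sfam e s U w k ch with hf
    have hfl : f (Sum.inl l₀) = s l₀ := by simp [hf, sfam, hl₀]
    have hmem : f (Sum.inl l₀) ∈ (MM R E).closure ({U (pend (β l₀)), U (Sum.inr l₀)} ∪ f '' {Sum.inl l₀}ᶜ) := by
      rw [hfl]
      refine Matroid.closure_subset_closure (MM R E) ?_ (hsu l₀)
      rintro z ((rfl | rfl) | ⟨j, rfl⟩)
      · rcases (h2 (β l₀)).1 with h3 | ⟨l, hl, hl2⟩
        · rw [h3]
          exact Or.inl (Or.inl rfl)
        · refine Or.inr ⟨Sum.inl l, ?_, ?_⟩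
          · intro h4
            have h5 : l = l₀ := Sum.inl_injective h4
            subst h5
            omega
          · simp [hf, sfam, hl, hl2]
      · exact Or.inl (Or.inr rfl)
      · exact Or.inr ⟨Sum.inr j, by simp, rfl⟩
    have hgen : ∀ v : B ⊕ Λ, sfam e s U w (k + 1) (Function.update ch l₀ v) = Function.update f (Sum.inl l₀) (U v) := by
      intro v
      funext i
      rcases i with l | i
      · by_cases hl : l = l₀
        · subst hl
          simp [sfam, hl₀]
        · have h3 : e l ≠ k := fun h => hl (he (h.trans hl₀.symm))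
          have h4 : e l < k + 1 ↔ e l < k := by omega
          rw [Function.update_of_ne (fun h => hl (Sum.inl_injective h))]
          simp only [sfam, Sum.elim_inl, h4, Function.update_of_ne hl, hf]
      · rw [Function.update_of_ne (by simp)]
        rfl
    rcases update_indep h1 (Sum.inl l₀) _ _ hmem with h3 | h3
    · refine ⟨Function.update ch l₀ (pend (β l₀)), Function.update pend (β l₀) (Sum.inr l₀), fun l hl => ?_, ?_, ?_⟩
      · exact Function.update_of_ne (fun h => by subst h; omega) _ _
      · rw [hgen]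
        exact h3
      · intro b
        have key : ∀ v : B ⊕ Λ, (v = pend b ∨ ∃ l, e l < k ∧ ch l = v) →
            (v = Function.update pend (β l₀) (Sum.inr l₀) b ∨
              ∃ l, e l < k + 1 ∧ Function.update ch l₀ (pend (β l₀)) l = v) := by
          rintro v (hv | ⟨l, hl, hl2⟩)
          · by_cases hb : b = β l₀
            · subst hb
              exact Or.inr ⟨l₀, by omega, by rw [Function.update_self]; exact hv.symm⟩
            · rw [Function.update_of_ne hb]
              exact Or.inl hv
          · refine Or.inr ⟨l, by omega, ?_⟩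
            rw [Function.update_of_ne (fun h => by subst h; omega)]
            exact hl2
        refine ⟨key _ (h2 b).1, fun m hm hm2 => ?_⟩
        rcases Nat.lt_or_ge (e m) k with h4 | h4
        · exact key _ ((h2 b).2 m hm h4)
        · have h5 : m = l₀ := he (by omega)
          subst h5
          left
          rw [← hm, Function.update_self]
    · refine ⟨Function.update ch l₀ (Sum.inr l₀), pend, fun l hl => ?_, ?_, ?_⟩
      · exact Function.update_of_ne (fun h => by subst h; omega) _ _
      · rw [hgen]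
        exact h3
      · intro b
        have key : ∀ v : B ⊕ Λ, (v = pend b ∨ ∃ l, e l < k ∧ ch l = v) →
            (v = pend b ∨ ∃ l, e l < k + 1 ∧ Function.update ch l₀ (Sum.inr l₀) l = v) := by
          rintro v (hv | ⟨l, hl, hl2⟩)
          · exact Or.inl hv
          · refine Or.inr ⟨l, by omega, ?_⟩
            rw [Function.update_of_ne (fun h => by subst h; omega)]
            exact hl2
        refine ⟨key _ (h2 b).1, fun m hm hm2 => ?_⟩
        rcases Nat.lt_or_ge (e m) k with h4 | h4
        · exact key _ ((h2 b).2 m hm h4)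
        · have h5 : m = l₀ := he (by omega)
          subst h5
          exact Or.inr ⟨m, by omega, Function.update_self _ _ _⟩

/-- **The choice theorem for stars** -/
theorem star_indep {B Λ ω : Type*} [Countable Λ] (β : Λ → B) {s : Λ → E} {U : B ⊕ Λ → E} {w : ω → E}
    (hs : AlgebraicIndependent R (Sum.elim s w))
    (hsu : ∀ l, s l ∈ (MM R E).closure ({U (Sum.inl (β l)), U (Sum.inr l)} ∪ range w)) :
    ∃ C : Set (B ⊕ Λ), (∀ p q, p ∉ C → q ∉ C → Sum.elim id β p = Sum.elim id β q → p = q) ∧
      AlgebraicIndependent R (Sum.elim (fun p : C => U p.1) w) := by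
  classical
  obtain ⟨e, he⟩ := exists_injective_nat Λ
  let Inv : ℕ → (Λ → B ⊕ Λ) × (B → B ⊕ Λ) → Prop := fun k q => AlgebraicIndependent R (sfam e s U w k q.1) ∧
    ∀ b, (Sum.inl b = q.2 b ∨ ∃ l, e l < k ∧ q.1 l = Sum.inl b) ∧
      ∀ m, β m = b → e m < k → (Sum.inr m = q.2 b ∨ ∃ l, e l < k ∧ q.1 l = Sum.inr m)
  have hstep : ∀ k q, Inv k q → ∃ q', (∀ l, e l < k → q'.1 l = q.1 l) ∧ Inv (k + 1) q' := by
    intro k q hq
    obtain ⟨ch', pend', h1, h2, h3⟩ := sstep he hsu k q.1 q.2 hq.1 hq.2
    exact ⟨(ch', pend'), h1, h2, h3⟩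
  have h0 : Inv 0 (Sum.inr, Sum.inl) := by
    refine ⟨?_, fun b => ⟨Or.inl rfl, fun m _ hm => absurd hm (Nat.not_lt_zero _)⟩⟩
    have : sfam e s U w 0 (Sum.inr : Λ → B ⊕ Λ) = Sum.elim s w := by
      funext i
      rcases i with l | i <;> simp [sfam]
    rw [this]
    exact hs
  let seq : (k : ℕ) → {q // Inv k q} := fun k =>
    Nat.rec (motive := fun k => {q // Inv k q}) ⟨(Sum.inr, Sum.inl), h0⟩
      (fun k q => ⟨(hstep k q.1 q.2).choose, (hstep k q.1 q.2).choose_spec.2⟩) k
  have hseq : ∀ k l, e l < k → (seq (k + 1)).1.1 l = (seq k).1.1 l := fun k l hl =>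
    (hstep k (seq k).1 (seq k).2).choose_spec.1 l hl
  have hst : ∀ l k, e l + 1 ≤ k → (seq k).1.1 l = (seq (e l + 1)).1.1 l := by
    intro l k hk
    induction k, hk using Nat.le_induction with
    | base => rfl
    | succ k hk ih => rw [hseq k l (by omega), ih]
  let CH : Λ → B ⊕ Λ := fun l => (seq (e l + 1)).1.1 l
  have hfin : AlgebraicIndependent R (Sum.elim (fun l => U (CH l)) w) := by
    refine algebraicIndependent_of_finite_type fun T hT => ?_
    let k : ℕ := hT.toFinset.sup (fun i => Sum.elim e (fun _ => 0) i) + 1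
    have h1 := (seq k).2.1.comp (Subtype.val : T → Λ ⊕ ω) Subtype.val_injective
    convert h1 using 1
    funext i
    obtain ⟨i, hi⟩ := i
    rcases i with l | i
    · have h2 : e l < k := Nat.lt_succ_of_le
        (Finset.le_sup (f := fun i => Sum.elim e (fun _ => 0) i) (hT.mem_toFinset.2 hi))
      simp only [Function.comp_apply, sfam, Sum.elim_inl, h2, if_true]
      rw [hst l k (by omega)]
    · rfl
  refine ⟨range CH, ?_, ?_⟩
  · have h1 : ∀ p, p ∉ range CH → ∀ k, Sum.elim (fun _ => 0) (fun m => e m + 1) p ≤ k →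
        p = (seq k).1.2 (Sum.elim id β p) := by
      rintro (b | m) hp k hk
      · rcases ((seq k).2.2 b).1 with h | ⟨l, hl, hl2⟩
        · exact h
        · exact absurd ⟨l, by rw [← hl2, hst l k (by omega)]⟩ hp
      · have hk2 : e m < k := hk
        rcases ((seq k).2.2 (β m)).2 m rfl hk2 with h | ⟨l, hl, hl2⟩
        · exact h
        · exact absurd ⟨l, by rw [← hl2, hst l k (by omega)]⟩ hp
    intro p q hp hq hpq
    have h2 := h1 p hp (max (Sum.elim (fun _ => 0) (fun m => e m + 1) p) (Sum.elim (fun _ => 0) (fun m => e m + 1) q))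
      (le_max_left _ _)
    have h3 := h1 q hq (max (Sum.elim (fun _ => 0) (fun m => e m + 1) p) (Sum.elim (fun _ => 0) (fun m => e m + 1) q))
      (le_max_right _ _)
    rw [hpq] at h2
    exact h2.trans h3.symm
  · choose g hg using fun p : range CH => p.2
    have h1 := hfin.comp (Sum.map g id) (by
      refine Function.Injective.sumMap ?_ Function.injective_id
      intro p q hab
      refine Subtype.ext ?_
      rw [← hg p, ← hg q, hab])
    convert h1 using 1
    funext i
    rcases i with p | i
    · simp only [Sum.elim_inl, Function.comp_apply, Sum.map_inl]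
      rw [hg p]
    · rfl

end Pool.Agent.N778.CH
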