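import Pool.Agent.N902.EW.Fi
import Pool.Agent.N778.CH.Star

/-!
# Damped zeta values: at most one exception in every block
-/

set_option autoImplicit false

open Set

namespace Pool.Agent.N778.CH

open Pool.Agent.N902.EW

lemma PT_zero' {k : ℕ} (hk : 2 ≤ k) : PT k 0 = riemannZeta k := by
  have h := zeta_split hk 0
  have h1 : PS k 0 = 0 := by
    rw [PS, tsum_eq_single 0]
    · simp
    · intro j hj
      rw [zero_pow hj]
      simp
  rw [h1, zero_add] at h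
  exact h.symm

lemma zeta_even_mem' {L : Subfield ℂ} (hpi : (Real.pi : ℂ) ∈ L) {n : ℕ} (hn : n ≠ 0) :
    riemannZeta ((2 * n : ℕ) : ℂ) ∈ L := by
  have h6 := riemannZeta_two_mul_nat (k := n) hn
  have h7 : ((2 * n : ℕ) : ℂ) = 2 * (n : ℂ) := by push_cast; ring
  rw [h7, h6]
  have hq : ∀ q : ℚ, (q : ℂ) ∈ L := fun q => SubfieldClass.ratCast_mem L q
  have hn' : ∀ n : ℕ, (n : ℂ) ∈ L := fun n => natCast_mem L n
  refine L.div_mem (L.mul_mem (L.mul_mem (L.mul_mem (L.pow_mem (L.neg_mem L.one_mem) _) (L.pow_mem ?_ _)) (L.pow_mem hpi _))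
    (hq _)) (hn' _)
  exact_mod_cast hn' 2

/-- **At most one exception in every block** -/
theorem damped (X : Set ℂ) (hX : ∀ x ∈ X, IsAlgebraic ℚ x ∧ ∀ y ∈ X, x + y ≠ 0) {B : Type} (z : B → ℂ) (β : ℕ → B)
    (hβ : ∀ k, 2 ≤ k → IsAlgebraic (IntermediateField.adjoin KK {z (β k)}) (riemannZeta k)) :
    ∃ C : Set (B ⊕ {p : ℕ × ℂ // 2 ≤ p.1 ∧ p.2 ∈ X}),
      (∀ p q, p ∉ C → q ∉ C → Sum.elim id (fun p : {p : ℕ × ℂ // 2 ≤ p.1 ∧ p.2 ∈ X} => β p.1.1) p =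
        Sum.elim id (fun p : {p : ℕ × ℂ // 2 ≤ p.1 ∧ p.2 ∈ X} => β p.1.1) q → p = q) ∧
      AlgebraicIndependent KK (fun p : C =>
        Sum.elim z (fun p : {p : ℕ × ℂ // 2 ≤ p.1 ∧ p.2 ∈ X} => PT p.1.1 p.1.2) p.1) := by
  have hXc : X.Countable := (Algebraic.countable ℚ ℂ).mono fun x hx => (hX x hx).1
  have hc : Countable {p : ℕ × ℂ // 2 ≤ p.1 ∧ p.2 ∈ X} := by
    refine (((countable_univ (α := ℕ)).prod hXc).mono ?_).to_subtype
    rintro ⟨k, x⟩ h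
    exact ⟨mem_univ _, h.2⟩
  have h0 : AlgebraicIndependent KK (Sum.elim (fun p : {p : ℕ × ℂ // 2 ≤ p.1 ∧ p.2 ∈ X} => PS p.1.1 p.1.2)
      (fun i : Fin 0 => Fin.elim0 i)) := by
    have h1 := (ai_PS X hX).comp (fun i : {p : ℕ × ℂ // 2 ≤ p.1 ∧ p.2 ∈ X} ⊕ Fin 0 =>
      Sum.elim id (fun i : Fin 0 => Fin.elim0 i) i) (by
      rintro (a | a) (b | b) h
      · exact congrArg Sum.inl h
      · exact Fin.elim0 b
      · exact Fin.elim0 a
      · exact Fin.elim0 a)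
    convert h1 using 1
    funext i
    rcases i with i | i
    · rfl
    · exact Fin.elim0 i
  obtain ⟨C, hC, hC2⟩ := star_indep (R := KK) (fun p : {p : ℕ × ℂ // 2 ≤ p.1 ∧ p.2 ∈ X} => β p.1.1)
    (U := Sum.elim z (fun p : {p : ℕ × ℂ // 2 ≤ p.1 ∧ p.2 ∈ X} => PT p.1.1 p.1.2)) h0 (fun p => by
      show PS p.1.1 p.1.2 ∈ clf KK _
      have h1 : riemannZeta p.1.1 ∈ clf KK {z (β p.1.1)} := mem_clf.2 (hβ _ p.2.1)
      have h3 := zeta_split p.2.1 p.1.2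
      have h4 : PS p.1.1 p.1.2 = riemannZeta p.1.1 - PT p.1.1 p.1.2 := by rw [h3]; ring
      rw [h4]
      refine (clf KK _).sub_mem (clf_mono ?_ h1) (subset_clf _ (Or.inl (Or.inr rfl)))
      rintro t rfl
      exact Or.inl (Or.inl rfl))
  refine ⟨C, hC, ?_⟩
  have h1 := hC2.comp Sum.inl Sum.inl_injective
  exact h1

end Pool.Agent.N778.CH
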