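import Pool.Agent.N778.CH.ScaleB

/-!
# The transfer for families of finite sets of names
-/

set_option autoImplicit false

open Set

namespace Pool.Agent.N778.CH

open MvPolynomial
open Pool.Agent.N778.AF (Scale base AK cst NS NS_of indep_of_meas)

/-- **Transfer for a family of sets of names** -/
theorem scale_of' {Name ω : Type} [Fintype ω] (val : Name → ℝ) (w : ω → ℝ) (ok : Finset Name → Prop)
    (h : ∀ σ : Scale, ∃ K : Finset Name, ok K ∧
      AlgebraicIndependent (base σ) (Sum.elim (fun i : ω => cst σ (w i)) (fun p : {p // p ∈ K} => cst σ (val p.1))))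
    (D : ℕ) :
    ∃ κ : ℕ, ∃ c : ℝ, 0 < c ∧ ∀ H : ℝ, 1 ≤ H → ∃ K : Finset Name, ok K ∧
        Good (Sum.elim w (fun p : {p // p ∈ K} => val p.1)) D (c / H ^ κ) H := by
  classical
  let A : Type := {K : Finset Name // ok K}
  have hNS : NS (A := A) (ι := fun a => ω ⊕ {p // p ∈ a.1})
      (fun a => Sum.elim w (fun p : {p // p ∈ a.1} => val p.1)) := by
    refine NS_of _ fun σ => ?_
    obtain ⟨K, hK, hC2⟩ := h σ
    refine ⟨⟨K, hK⟩, ?_⟩
    have e : (Sum.elim (fun i : ω => cst σ (w i)) (fun p : {p // p ∈ K} => cst σ (val p.1))) =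
        fun i => cst σ (Sum.elim w (fun p : {p // p ∈ K} => val p.1) i) := by
      funext i
      rcases i with i | p <;> rfl
    rw [e] at hC2
    exact hC2
  obtain ⟨κ, c, hc, hm⟩ := hNS D
  refine ⟨κ, c, hc, fun H hH => ?_⟩
  by_contra hcon
  push Not at hcon
  have hbad : ∀ a : A, ∃ P : MvPolynomial (ω ⊕ {p // p ∈ a.1}) ℤ, P ≠ 0 ∧ P.totalDegree ≤ D ∧
      (∀ s, |((P.coeff s : ℤ) : ℝ)| ≤ H) ∧
        |aeval (Sum.elim w (fun p : {p // p ∈ a.1} => val p.1)) P| < c / H ^ κ := by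
    intro a
    have h1 := hcon a.1 a.2
    rw [Good] at h1
    push Not at h1
    obtain ⟨P, h2, h3, h4, h5⟩ := h1
    exact ⟨P, h2, h3, h4, h5⟩
  choose P h2 h3 h4 h5 using hbad
  obtain ⟨a, ha⟩ := hm P h2 h3 H hH h4
  have h6 := h5 a
  have hHp : (0 : ℝ) < H ^ κ := pow_pos (lt_of_lt_of_le one_pos hH) κ
  rw [lt_div_iff₀ hHp] at h6
  have h7 : c < c := by
    calc c ≤ H ^ κ * |aeval (Sum.elim w (fun p : {p // p ∈ a.1} => val p.1)) (P a)| := ha
      _ = |aeval (Sum.elim w (fun p : {p // p ∈ a.1} => val p.1)) (P a)| * H ^ κ := mul_comm _ _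
      _ < c := h6
  exact lt_irrefl _ h7

end Pool.Agent.N778.CH
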