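import Pool.Agent.N778.CH.ScaleG
import Pool.Agent.N778.CH.ScaleC

/-!
# Relations between gamma values and complete families
-/

set_option autoImplicit false

open Set

namespace Pool.Agent.N778.CH

open MvPolynomial
open Pool.Agent.N778.AF (Scale AK cst NS NS_of clA subset_clA cst_mem_of cst_mem clA_mono card_leA Ma)
open Pool.Agent.R352.E (clF mem_clF subset_clF clF_mono clF_le of_pow card_le_card mem_cl_iff)
open Pool.Agent.R352.T (EA gu)

/-! ### products of powers -/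

theorem rpow_mem {C : Set ℝ} {z : ℝ} (hz : 0 < z) (h : z ∈ clF C) (q : ℚ) : z ^ (q : ℝ) ∈ clF C := by
  refine of_pow (n := q.den) q.den_nz ?_
  have h1 : (z ^ (q : ℝ)) ^ q.den = z ^ q.num := by
    rw [← Real.rpow_natCast, ← Real.rpow_mul hz.le, ← Real.rpow_intCast]
    congr 1
    have h2 : (q : ℝ) = (q.num : ℝ) / (q.den : ℝ) := by exact_mod_cast (Rat.num_div_den q).symm
    have h3 : (q.den : ℝ) ≠ 0 := by exact_mod_cast q.den_nz
    rw [h2]
    field_simp
  rw [h1]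
  exact zpow_mem h _

variable {ι : Type} [Fintype ι] {z : ι → ℝ}

/-- the exponents for which the product is in the closed field -/
noncomputable def expo (hz : ∀ i, 0 < z i) (C : Set ℝ) : Submodule ℚ (ι → ℚ) where
  carrier := {v | ∏ i, z i ^ (v i : ℝ) ∈ clF C}
  zero_mem' := by
    show ∏ i, z i ^ (((0 : ι → ℚ) i : ℚ) : ℝ) ∈ clF C
    simp only [Pi.zero_apply, Rat.cast_zero, Real.rpow_zero, Finset.prod_const_one]
    exact (clF C).one_mem
  add_mem' := by
    intro v w hv hw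
    have : ∏ i, z i ^ (((v + w) i : ℚ) : ℝ) = (∏ i, z i ^ (v i : ℝ)) * ∏ i, z i ^ (w i : ℝ) := by
      rw [← Finset.prod_mul_distrib]
      refine Finset.prod_congr rfl fun o _ => ?_
      rw [Pi.add_apply, Rat.cast_add, Real.rpow_add (hz o)]
    show ∏ i, z i ^ (((v + w) i : ℚ) : ℝ) ∈ clF C
    rw [this]
    exact (clF C).mul_mem hv hw
  smul_mem' := by
    intro q v hv
    have : ∏ i, z i ^ (((q • v) i : ℚ) : ℝ) = (∏ i, z i ^ (v i : ℝ)) ^ (q : ℝ) := by
      rw [← Real.finsetProd_rpow _ _ fun o _ => (Real.rpow_pos_of_pos (hz o) _).le]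
      refine Finset.prod_congr rfl fun o _ => ?_
      rw [Pi.smul_apply, smul_eq_mul, Rat.cast_mul, mul_comm, Real.rpow_mul (hz o).le]
    show ∏ i, z i ^ (((q • v) i : ℚ) : ℝ) ∈ clF C
    rw [this]
    exact rpow_mem (Finset.prod_pos fun i _ => Real.rpow_pos_of_pos (hz i) _) hv q

/-- relations between products: as many elements are not in the independent part -/
theorem relations_le [DecidableEq ι] (hz : ∀ i, 0 < z i) {Bs : Set ℝ} (K : Finset ι)
    (hind : ∀ i ∈ K, z i ∉ clF (Bs ∪ z '' {j | j ∈ K ∧ j ≠ i})) {s : ℕ} {v : Fin s → ι → ℚ}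
    (hv : LinearIndependent ℚ v) (hp : ∀ i, ∏ j, z j ^ (v i j : ℝ) ∈ clF Bs) :
    s ≤ (Finset.univ.filter fun i => i ∉ K).card := by
  classical
  by_contra hcon
  push Not at hcon
  let A1 := {i : ι // i ∉ K}
  have hA1 : Fintype.card A1 = (Finset.univ.filter fun i => i ∉ K).card := Fintype.card_subtype _
  let res : (ι → ℚ) →ₗ[ℚ] (A1 → ℚ) := LinearMap.funLeft ℚ ℚ Subtype.val
  have hdep : ¬ LinearIndependent ℚ (fun i => res (v i)) := by
    intro h
    have h1 := h.fintype_card_le_finrank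
    rw [Module.finrank_fintype_fun_eq_card, Fintype.card_fin, hA1] at h1
    omega
  rw [Fintype.not_linearIndependent_iff] at hdep
  obtain ⟨c, hc, i₀, hi₀⟩ := hdep
  set w : ι → ℚ := ∑ i, c i • v i with hw
  have hw0 : w ≠ 0 := by
    intro h
    exact hi₀ (Fintype.linearIndependent_iff.1 hv c h i₀)
  have hwA : ∀ i, i ∉ K → w i = 0 := by
    intro i hi
    have h1 : res w = 0 := by
      rw [hw, map_sum]
      simpa only [map_smul] using hc
    exact congrFun h1 ⟨i, hi⟩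
  obtain ⟨a₀, ha₀⟩ : ∃ a₀, w a₀ ≠ 0 := by
    by_contra h
    push Not at h
    exact hw0 (funext h)
  have haK : a₀ ∈ K := by
    by_contra h
    exact ha₀ (hwA _ h)
  have hwm : w ∈ expo hz Bs := by
    rw [hw]
    exact Submodule.sum_mem _ fun i _ => Submodule.smul_mem _ _ (hp i)
  set C : Set ℝ := Bs ∪ z '' {j | j ∈ K ∧ j ≠ a₀} with hC
  have h1 : ∏ j, z j ^ (w j : ℝ) ∈ clF C := (clF_mono subset_union_left : clF Bs ≤ clF C) hwm
  have h2 : ∏ j ∈ Finset.univ.erase a₀, z j ^ (w j : ℝ) ∈ clF C := by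
    refine (clF C).prod_mem fun j hj => ?_
    by_cases hjK : j ∈ K
    · exact rpow_mem (hz j) (subset_clF _ (Or.inr ⟨j, ⟨hjK, (Finset.mem_erase.1 hj).1⟩, rfl⟩)) _
    · rw [hwA j hjK, Rat.cast_zero, Real.rpow_zero]
      exact (clF C).one_mem
  have h3 : z a₀ ^ (w a₀ : ℝ) ∈ clF C := by
    have h4 : z a₀ ^ (w a₀ : ℝ) = (∏ j, z j ^ (w j : ℝ)) / ∏ j ∈ Finset.univ.erase a₀, z j ^ (w j : ℝ) := by
      rw [← Finset.mul_prod_erase _ _ (Finset.mem_univ a₀), mul_div_cancel_right₀]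
      exact Finset.prod_ne_zero_iff.2 fun j _ => (Real.rpow_pos_of_pos (hz j) _).ne'
    rw [h4]
    exact (clF C).div_mem h1 h2
  refine hind a₀ haK ?_
  have h5 := rpow_mem (Real.rpow_pos_of_pos (hz a₀) _) h3 (w a₀)⁻¹
  rw [← Real.rpow_mul (hz a₀).le] at h5
  have h6 : ((w a₀ : ℚ) : ℝ) * (((w a₀)⁻¹ : ℚ) : ℝ) = 1 := by
    rw [← Rat.cast_mul, mul_inv_cancel₀ ha₀, Rat.cast_one]
  rwa [h6, Real.rpow_one] at h5

/-! ### the gamma values at `j / 2^n` -/

/-- the generators -/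
noncomputable def gen (n : ℕ) (o : Option (Fin (2 ^ (n - 2)))) : ℝ :=
  o.elim Real.pi (fun i => Real.Gamma (((2 * (i : ℕ) + 1 : ℕ) : ℝ) / 2 ^ n))

theorem alg_mem {T : Set ℝ} {w : ℝ} (h : IsAlgebraic ℚ w) : w ∈ clF T := by
  have h1 : w ∈ clF (∅ : Set ℝ) := by
    rw [mem_clF]
    exact h.tower_top _
  exact clF_mono (empty_subset _) h1

theorem odd_top {n : ℕ} (hn : 2 ≤ n) {u : ℕ} (hu : Odd u) (hlt : u < 2 ^ n) :
    Real.Gamma ((u : ℝ) / 2 ^ n) ∈ clF (range (gen n)) := by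
  have hpi : Real.pi ∈ clF (range (gen n)) := subset_clF _ ⟨none, rfl⟩
  have hpow : 2 ^ n = 2 * 2 ^ (n - 1) := by
    rw [← pow_succ']
    congr 1
    omega
  have hpow2 : 2 ^ (n - 1) = 2 * 2 ^ (n - 2) := by
    rw [← pow_succ']
    congr 1
    omega
  have hlow : ∀ u : ℕ, Odd u → u < 2 ^ (n - 1) → Real.Gamma ((u : ℝ) / 2 ^ n) ∈ clF (range (gen n)) := by
    rintro u ⟨i, rfl⟩ h
    have hi : i < 2 ^ (n - 2) := by omega
    exact subset_clF _ ⟨some ⟨i, hi⟩, rfl⟩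
  rcases Nat.lt_or_ge u (2 ^ (n - 1)) with h | h
  · exact hlow u hu h
  · have hne : u ≠ 2 ^ (n - 1) := by
      rintro rfl
      rw [hpow2] at hu
      exact (Nat.not_even_iff_odd.2 hu) (even_two_mul _)
    have h1 : 2 ^ n - u < 2 ^ (n - 1) := by omega
    have h2 : Odd (2 ^ n - u) := by
      refine Nat.Even.sub_odd hlt.le ?_ hu
      rw [hpow]
      exact even_two_mul _
    have h3 := hlow _ h2 h1
    have h4 : (((2 ^ n - u : ℕ) : ℝ)) / 2 ^ n = 1 - (u : ℝ) / 2 ^ n := by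
      rw [Nat.cast_sub hlt.le]
      push_cast
      field_simp
    rw [h4] at h3
    have h5 := Real.Gamma_mul_Gamma_one_sub ((u : ℝ) / 2 ^ n)
    have h6 : Real.sin (Real.pi * ((u : ℝ) / 2 ^ n)) ∈ clF (range (gen n)) := by
      refine alg_mem ?_
      have h7 := Real.isAlgebraic_sin_rat_mul_pi ((u : ℚ) / 2 ^ n)
      have h8 : ((((u : ℚ) / 2 ^ n : ℚ) : ℝ)) * Real.pi = Real.pi * ((u : ℝ) / 2 ^ n) := by
        push_cast
        ring
      rw [h8] at h7
      exact h7.extendScalars (R := ℤ) (S := ℚ) (by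
        intro a b hab
        simpa using hab)
    have hu0 : 0 < (u : ℝ) / 2 ^ n := by
      have : 0 < u := hu.pos
      positivity
    have hu1 : (u : ℝ) / 2 ^ n < 1 := by
      rw [div_lt_one (by positivity)]
      exact_mod_cast hlt
    have h9 : 0 < Real.Gamma (1 - (u : ℝ) / 2 ^ n) := Real.Gamma_pos_of_pos (by linarith)
    have h10 : Real.Gamma ((u : ℝ) / 2 ^ n) =
        Real.pi / Real.sin (Real.pi * ((u : ℝ) / 2 ^ n)) / Real.Gamma (1 - (u : ℝ) / 2 ^ n) := by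
      rw [← h5, mul_div_cancel_right₀ _ h9.ne']
    rw [h10]
    exact (clF _).div_mem ((clF _).div_mem hpi h6) h3

theorem odd_all {n : ℕ} (hn : 2 ≤ n) (t : ℕ) (ht : t < n) :
    ∀ u : ℕ, Odd u → u < 2 ^ (n - t) → Real.Gamma ((u : ℝ) / 2 ^ (n - t)) ∈ clF (range (gen n)) := by
  induction t with
  | zero => intro u hu hlt; exact odd_top hn hu hlt
  | succ t ih =>
    intro u hu hlt
    have ih := ih (by omega)
    have hm : n - t = (n - (t + 1)) + 1 := by omega
    set m := n - (t + 1) with hmdef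
    have hm1 : 1 ≤ m := by omega
    rw [hm] at ih
    have hpi : Real.pi ∈ clF (range (gen n)) := subset_clF _ ⟨none, rfl⟩
    have h1 := ih u hu (by rw [pow_succ]; omega)
    have h2 := ih (u + 2 ^ m) (by
      refine hu.add_even ?_
      obtain ⟨k, hk⟩ : ∃ k, m = k + 1 := ⟨m - 1, by omega⟩
      rw [hk, pow_succ, mul_comm]
      exact even_two_mul _) (by rw [pow_succ]; omega)
    have h3 := Real.Gamma_mul_Gamma_add_half ((u : ℝ) / 2 ^ (m + 1))
    have h4 : ((u + 2 ^ m : ℕ) : ℝ) / 2 ^ (m + 1) = (u : ℝ) / 2 ^ (m + 1) + 1 / 2 := by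
      push_cast
      rw [pow_succ]
      field_simp
    rw [h4] at h2
    have h5 : 2 * ((u : ℝ) / 2 ^ (m + 1)) = (u : ℝ) / 2 ^ m := by
      rw [pow_succ]
      field_simp
    rw [h5] at h3
    have h6 : Real.sqrt Real.pi ∈ clF (range (gen n)) := by
      refine of_pow (n := 2) two_ne_zero ?_
      rw [Real.sq_sqrt Real.pi_pos.le]
      exact hpi
    have h7 : (2 : ℝ) ^ (1 - (u : ℝ) / 2 ^ m) ∈ clF (range (gen n)) := by
      have h8 : (2 : ℝ) ∈ clF (range (gen n)) := ofNat_mem _ 2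
      have h9 := rpow_mem (C := range (gen n)) two_pos h8 (1 - (u : ℚ) / 2 ^ m)
      convert h9 using 2
      push_cast
      ring
    have h8 : (0 : ℝ) < 2 ^ (1 - (u : ℝ) / 2 ^ m) * Real.sqrt Real.pi := by
      have := Real.pi_pos
      positivity
    have h9 : Real.Gamma ((u : ℝ) / 2 ^ m) = Real.Gamma ((u : ℝ) / 2 ^ (m + 1)) *
        Real.Gamma ((u : ℝ) / 2 ^ (m + 1) + 1 / 2) / (2 ^ (1 - (u : ℝ) / 2 ^ m) * Real.sqrt Real.pi) := by
      rw [eq_div_iff h8.ne', h3]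
      ring
    rw [h9]
    exact (clF _).div_mem ((clF _).mul_mem h1 h2) ((clF _).mul_mem h7 h6)

theorem gamma_pow_two {n : ℕ} (hn : 2 ≤ n) {j : ℕ} (hj : 0 < j) (hlt : j < 2 ^ n) :
    Real.Gamma ((j : ℝ) / 2 ^ n) ∈ clF (range (gen n)) := by
  obtain ⟨t, u, hu, rfl⟩ := Nat.exists_eq_two_pow_mul_odd hj.ne'
  have hu0 : 0 < u := hu.pos
  have ht : t < n := by
    by_contra h
    have h1 : 2 ^ n ≤ 2 ^ t := Nat.pow_le_pow_right two_pos (by omega)
    have h2 : 2 ^ t ≤ 2 ^ t * u := Nat.le_mul_of_pos_right _ hu0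
    omega
  have hnt : n = t + (n - t) := by omega
  have h1 : u < 2 ^ (n - t) := by
    rw [hnt, pow_add] at hlt
    exact lt_of_mul_lt_mul_left hlt (Nat.zero_le _)
  have h2 := odd_all hn t ht u hu h1
  have h3 : ((2 ^ t * u : ℕ) : ℝ) / 2 ^ n = (u : ℝ) / 2 ^ (n - t) := by
    push_cast
    have h4 : (2 : ℝ) ^ n = 2 ^ t * 2 ^ (n - t) := by
      rw [← pow_add]
      congr 1
    rw [h4]
    field_simp
  rw [h3]
  exact h2

end Pool.Agent.N778.CH
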