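import Pool.Agent.N778.AF.Scale
import Pool.Agent.N778.AF.Gen2

/-!
# At every scale at most one exception in every block
-/

set_option autoImplicit false

open Set

namespace Pool.Agent.N778.CH

open MvPolynomial
open Pool.Agent.N778.AF (Scale base AK cst NS NS_of indep_of_meas rename_ht rename_ne)
open Pool.Agent.N778.EM (MeasF)

/-- no nonzero integral polynomial of degree at most `D` and height at most `H` is smaller than `δ` at the point -/
def Good {ι : Type} (θ : ι → ℝ) (D : ℕ) (δ H : ℝ) : Prop :=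
  ∀ P : MvPolynomial ι ℤ, P ≠ 0 → P.totalDegree ≤ D → (∀ s, |((P.coeff s : ℤ) : ℝ)| ≤ H) → δ ≤ |aeval θ P|

lemma Good.comp {ι κ : Type} {θ : ι → ℝ} {D : ℕ} {δ H : ℝ} (h : Good θ D δ H) (hH : 1 ≤ H) (g : κ → ι)
    (hg : Function.Injective g) : Good (θ ∘ g) D δ H := by
  intro P hP hD hPH
  have h1 := h (rename g P) (rename_ne hg hP) ((totalDegree_rename_le g P).trans hD) (rename_ht hg hH hPH)
  rwa [aeval_rename] at h1

/-- independence over the tame integers of an infinite family, every finite part of which has a measure -/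
theorem indep_inf (σ : Scale) {ι : Type} {θ : ι → ℝ} (h : ∀ T : Finset ι, MeasF (fun i : T => θ i)) :
    AlgebraicIndependent (base σ) (fun i => cst σ (θ i)) := by
  refine algebraicIndependent_of_finite_type fun t ht => ?_
  have h1 := indep_of_meas σ (h ht.toFinset)
  have h2 := h1.comp (fun i : t => (⟨i.1, ht.mem_toFinset.2 i.2⟩ : ht.toFinset)) (by
    intro a b hab
    exact Subtype.ext (congrArg (fun z : ht.toFinset => (z : ι)) hab))
  exact h2

/-- **Transfer for blocks** -/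
theorem scale_of {Name β ω : Type} [Fintype ω] (val : Name → ℝ) (w : ω → ℝ) (block : Name → β)
    (T : Finset Name)
    (h : ∀ σ : Scale, ∃ C : Set Name, (∀ p ∈ T, ∀ q ∈ T, p ∉ C → q ∉ C → block p = block q → p = q) ∧
      AlgebraicIndependent (base σ) (Sum.elim (fun i : ω => cst σ (w i))
        (fun p : {p // p ∈ T ∧ p ∈ C} => cst σ (val p.1)))) (D : ℕ) :
    ∃ κ : ℕ, ∃ c : ℝ, 0 < c ∧ ∀ H : ℝ, 1 ≤ H → ∃ N : Finset Name, N ⊆ T ∧
      (∀ p ∈ N, ∀ q ∈ N, block p = block q → p = q) ∧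
        Good (Sum.elim w (fun p : {p // p ∈ T ∧ p ∉ N} => val p.1)) D (c / H ^ κ) H := by
  classical
  let A : Type := {N : Finset Name // N ⊆ T ∧ ∀ p ∈ N, ∀ q ∈ N, block p = block q → p = q}
  haveI : ∀ a : A, Fintype (ω ⊕ {p // p ∈ T ∧ p ∉ a.1}) := fun a => by
    haveI : Finite {p // p ∈ T ∧ p ∉ a.1} := Set.Finite.to_subtype (T.finite_toSet.subset fun p hp => hp.1)
    haveI := Fintype.ofFinite {p // p ∈ T ∧ p ∉ a.1}
    infer_instance
  have hNS : NS (A := A) (ι := fun a => ω ⊕ {p // p ∈ T ∧ p ∉ a.1})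
      (fun a => Sum.elim w (fun p : {p // p ∈ T ∧ p ∉ a.1} => val p.1)) := by
    refine NS_of _ fun σ => ?_
    obtain ⟨C, hC, hC2⟩ := h σ
    refine ⟨⟨T.filter fun p => p ∉ C, Finset.filter_subset _ _, fun p hp q hq => ?_⟩, ?_⟩
    · exact hC p (Finset.mem_filter.1 hp).1 q (Finset.mem_filter.1 hq).1 (Finset.mem_filter.1 hp).2
        (Finset.mem_filter.1 hq).2
    · have hm : ∀ p, p ∈ T ∧ p ∉ T.filter (fun p => p ∉ C) → p ∈ T ∧ p ∈ C := by
        rintro p ⟨h1, h2⟩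
        refine ⟨h1, ?_⟩
        by_contra h3
        exact h2 (Finset.mem_filter.2 ⟨h1, h3⟩)
      have h1 := hC2.comp (Sum.map id (fun p : {p // p ∈ T ∧ p ∉ T.filter (fun p => p ∉ C)} =>
        (⟨p.1, hm p.1 p.2⟩ : {p // p ∈ T ∧ p ∈ C}))) (Function.Injective.sumMap Function.injective_id (by
          intro a b hab
          exact Subtype.ext (congrArg (fun z : {p // p ∈ T ∧ p ∈ C} => z.1) hab)))
      have e : (Sum.elim (fun i : ω => cst σ (w i)) (fun p : {p // p ∈ T ∧ p ∈ C} => cst σ (val p.1))) ∘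
          (Sum.map id (fun p : {p // p ∈ T ∧ p ∉ T.filter (fun p => p ∉ C)} =>
            (⟨p.1, hm p.1 p.2⟩ : {p // p ∈ T ∧ p ∈ C}))) =
          fun i => cst σ (Sum.elim w (fun p : {p // p ∈ T ∧ p ∉ T.filter (fun p => p ∉ C)} => val p.1) i) := by
        funext i
        rcases i with i | p <;> rfl
      rw [e] at h1
      exact h1
  obtain ⟨κ, c, hc, hm⟩ := hNS D
  refine ⟨κ, c, hc, fun H hH => ?_⟩
  by_contra hcon
  push Not at hcon
  have hbad : ∀ a : A, ∃ P : MvPolynomial (ω ⊕ {p // p ∈ T ∧ p ∉ a.1}) ℤ, P ≠ 0 ∧ P.totalDegree ≤ D ∧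
      (∀ s, |((P.coeff s : ℤ) : ℝ)| ≤ H) ∧
        |aeval (Sum.elim w (fun p : {p // p ∈ T ∧ p ∉ a.1} => val p.1)) P| < c / H ^ κ := by
    intro a
    have h1 := hcon a.1 a.2.1 a.2.2
    rw [Good] at h1
    push Not at h1
    obtain ⟨P, h2, h3, h4, h5⟩ := h1
    exact ⟨P, h2, h3, h4, h5⟩
  choose P h2 h3 h4 h5 using hbad
  obtain ⟨a, ha⟩ := hm P h2 h3 H hH h4
  have h6 := h5 a
  have hHp : (0 : ℝ) < H ^ κ := pow_pos (lt_of_lt_of_le one_pos hH) κ
  rw [lt_div_iff₀ hHp] at h6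
  have h7 : c < c := by
    calc c ≤ H ^ κ * |aeval (Sum.elim w (fun p : {p // p ∈ T ∧ p ∉ a.1} => val p.1)) (P a)| := ha
      _ = |aeval (Sum.elim w (fun p : {p // p ∈ T ∧ p ∉ a.1} => val p.1)) (P a)| * H ^ κ := mul_comm _ _
      _ < c := h6
  exact lt_irrefl _ h7

end Pool.Agent.N778.CH
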