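import Pool.Agent.N778.EM.FinalT
import Pool.Agent.N778.EM.Pencil
import Pool.Agent.N778.AF.Scale
import Pool.Agent.N778.CH.ScaleB
import Pool.Agent.N778.CH.Star

/-!
# Incomplete gamma values: at most one exception for every `a`
-/

set_option autoImplicit false

open Set

namespace Pool.Agent.N778.CH

open MvPolynomial
open Pool.Agent.N778.AF (Scale AK cst NS NS_of clA subset_clA cst_mem_of)
open Pool.Agent.N778.EM (MeasF EA_meas_fin)
open Pool.Agent.R352.E (clF mem_clF subset_clF clF_mono clF_le)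
open Pool.Agent.R352.T (EA gu EA_one_mem)

/-- the pairs `(a, x)`, `0 < a < 1`, `x > 0` -/
abbrev Gs : Type := {p : ℚ × ℚ // (0 < p.1 ∧ p.1 < 1) ∧ 0 < p.2}

/-- the triples `(a, l, x)` of the base -/
def GOK (b : ℚ × ℕ × ℚ) : Prop := (b.1 = 0 ∧ 1 ≤ b.2.1 ∨ (0 < b.1 ∧ b.1 < 1) ∧ 2 ≤ b.2.1) ∧ 0 < b.2.2

/-- the names of the base -/
abbrev BG : Type := Option {b : ℚ × ℕ × ℚ // GOK b}

/-- `e` and the values of E-functions -/
noncomputable def bg (o : BG) : ℝ := o.elim (Real.exp 1) (fun b => EA (b.1.1 : ℝ) b.1.2.1 (b.1.2.2 : ℝ))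

/-- the full independent family -/
noncomputable def θG : Gs ⊕ BG → ℝ := Sum.elim (fun p => EA (p.1.1 : ℝ) 1 (p.1.2 : ℝ)) bg

/-- the triple of a name -/
def tr : Gs ⊕ BG → ℚ × ℕ × ℚ
  | Sum.inl p => (p.1.1, 1, p.1.2)
  | Sum.inr none => (0, 0, 1)
  | Sum.inr (some b) => b.1

lemma tr_inj : Function.Injective tr := by
  rintro (p | (_ | b)) (q | (_ | c)) h
  · have h1 : p.1.1 = q.1.1 := congrArg (fun z : ℚ × ℕ × ℚ => z.1) h
    have h2 : p.1.2 = q.1.2 := congrArg (fun z : ℚ × ℕ × ℚ => z.2.2) h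
    exact congrArg Sum.inl (Subtype.ext (Prod.ext h1 h2))
  · have h1 : 1 = 0 := congrArg (fun z : ℚ × ℕ × ℚ => z.2.1) h
    exact absurd h1 one_ne_zero
  · exfalso
    have h1 : 1 = c.1.2.1 := congrArg (fun z : ℚ × ℕ × ℚ => z.2.1) h
    have h2 : p.1.1 = c.1.1 := congrArg (fun z : ℚ × ℕ × ℚ => z.1) h
    rcases c.2.1 with h3 | h3
    · exact absurd (h2.trans h3.1) p.2.1.1.ne'
    · omega
  · have h1 : 0 = 1 := congrArg (fun z : ℚ × ℕ × ℚ => z.2.1) h
    exact absurd h1 zero_ne_one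
  · rfl
  · exfalso
    have h1 : 0 = c.1.2.1 := congrArg (fun z : ℚ × ℕ × ℚ => z.2.1) h
    rcases c.2.1 with h3 | h3 <;> omega
  · exfalso
    have h1 : b.1.2.1 = 1 := congrArg (fun z : ℚ × ℕ × ℚ => z.2.1) h
    have h2 : b.1.1 = q.1.1 := congrArg (fun z : ℚ × ℕ × ℚ => z.1) h
    rcases b.2.1 with h3 | h3
    · exact absurd (h2.symm.trans h3.1) q.2.1.1.ne'
    · omega
  · exfalso
    have h1 : b.1.2.1 = 0 := congrArg (fun z : ℚ × ℕ × ℚ => z.2.1) h
    rcases b.2.1 with h3 | h3 <;> omega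
  · have h1 : b.1 = c.1 := h
    exact congrArg (fun z => Sum.inr (some z)) (Subtype.ext h1)

lemma tr_ok (i : Gs ⊕ BG) (h : i ≠ Sum.inr none) :
    (0 ≤ (tr i).1 ∧ (tr i).1 < 1) ∧ 1 ≤ (tr i).2.1 ∧ 0 < (tr i).2.2 := by
  rcases i with p | (_ | b)
  · exact ⟨⟨p.2.1.1.le, p.2.1.2⟩, le_rfl, p.2.2⟩
  · exact absurd rfl h
  · obtain ⟨h1, h2⟩ := b.2
    show (0 ≤ b.1.1 ∧ b.1.1 < 1) ∧ 1 ≤ b.1.2.1 ∧ 0 < b.1.2.2
    rcases h1 with h3 | h3
    · exact ⟨⟨h3.1.ge, by rw [h3.1]; exact one_pos⟩, h3.2, h2⟩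
    · exact ⟨⟨h3.1.1.le, h3.1.2⟩, by omega, h2⟩

lemma tr_val (i : Gs ⊕ BG) (h : i ≠ Sum.inr none) :
    θG i = EA ((tr i).1 : ℝ) ((tr i).2.1 - 1 + 1) ((tr i).2.2 : ℝ) := by
  have h1 := (tr_ok i h).2.1
  rw [Nat.sub_add_cancel h1]
  rcases i with p | (_ | b)
  · rfl
  · exact absurd rfl h
  · rfl

theorem θG_meas (T : Finset (Gs ⊕ BG)) : MeasF (fun i : T => θG i) := by
  classical
  let T' : Finset (Gs ⊕ BG) := T.filter fun i => i ≠ Sum.inr none
  let AX : Finset (ℚ × ℚ) := T'.image fun i => ((tr i).1, (tr i).2.2)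
  let J : ℕ := T'.sup fun i => (tr i).2.1
  have hAX : ∀ p ∈ AX, 0 ≤ p.1 ∧ p.1 < 1 ∧ 0 < p.2 := by
    intro p hp
    obtain ⟨i, hi, rfl⟩ := Finset.mem_image.1 hp
    have h1 := tr_ok i (Finset.mem_filter.1 hi).2
    exact ⟨h1.1.1, h1.1.2, h1.2.2⟩
  let e := AX.equivFin
  have h0 := EA_meas_fin J (fun i => (e.symm i : ℚ × ℚ).1) (fun i => (e.symm i : ℚ × ℚ).2)
    (fun i j h1 h2 => e.symm.injective (Subtype.ext (Prod.ext h1 h2)))
    (fun i => (hAX _ (e.symm i).2).1) (fun i => (hAX _ (e.symm i).2).2.1) (fun i => (hAX _ (e.symm i).2).2.2)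
  have hm : ∀ i : T, i.1 ≠ Sum.inr none → i.1 ∈ T' := fun i hi => Finset.mem_filter.2 ⟨i.2, hi⟩
  have hJ : ∀ i ∈ T', (tr i).2.1 - 1 < J := by
    intro i hi
    have h1 : (tr i).2.1 ≤ J := Finset.le_sup (f := fun i => (tr i).2.1) hi
    have h2 := (tr_ok i (Finset.mem_filter.1 hi).2).2.1
    omega
  let g : T → Fin 1 ⊕ (Fin J × Fin AX.card) := fun i =>
    if h : i.1 = Sum.inr none then Sum.inl 0 else
      Sum.inr (⟨(tr i.1).2.1 - 1, hJ _ (hm i h)⟩, e ⟨_, Finset.mem_image_of_mem (fun i => ((tr i).1, (tr i).2.2)) (hm i h)⟩)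
  have hg : Function.Injective g := by
    intro i j hij
    by_cases hi : i.1 = Sum.inr none
    · by_cases hj : j.1 = Sum.inr none
      · exact Subtype.ext (hi.trans hj.symm)
      · simp only [g, dif_pos hi, dif_neg hj] at hij
        exact absurd hij (by simp)
    · by_cases hj : j.1 = Sum.inr none
      · simp only [g, dif_neg hi, dif_pos hj] at hij
        exact absurd hij (by simp)
      · simp only [g, dif_neg hi, dif_neg hj] at hij
        have h1 := Sum.inr_injective hij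
        have h2 : (tr i.1).2.1 - 1 = (tr j.1).2.1 - 1 := congrArg (fun z : Fin J × Fin AX.card => (z.1 : ℕ)) h1
        have h3 := e.injective (congrArg (fun z : Fin J × Fin AX.card => z.2) h1)
        have h4 : ((tr i.1).1, (tr i.1).2.2) = ((tr j.1).1, (tr j.1).2.2) := congrArg (fun z : AX => (z : ℚ × ℚ)) h3
        have h5 := (tr_ok _ hi).2.1
        have h6 := (tr_ok _ hj).2.1
        have h7 : (tr i.1).1 = (tr j.1).1 := congrArg (fun z : ℚ × ℚ => z.1) h4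
        have h8 : (tr i.1).2.2 = (tr j.1).2.2 := congrArg (fun z : ℚ × ℚ => z.2) h4
        refine Subtype.ext (tr_inj (Prod.ext h7 (Prod.ext ?_ h8)))
        show (tr i.1).2.1 = (tr j.1).2.1
        omega
  have h1 := h0.comp g hg
  have e1 : (fun i : T => θG i) = (Sum.elim (fun _ : Fin 1 => Real.exp 1) (fun p : Fin J × Fin AX.card =>
      EA ((e.symm p.2 : ℚ × ℚ).1 : ℝ) (p.1 + 1) ((e.symm p.2 : ℚ × ℚ).2 : ℝ))) ∘ g := by
    funext i
    rw [Function.comp_apply]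
    by_cases hi : i.1 = Sum.inr none
    · simp only [g, dif_pos hi, Sum.elim_inl]
      rw [hi]
      rfl
    · simp only [g, dif_neg hi, Sum.elim_inr, Equiv.symm_apply_apply]
      exact tr_val i.1 hi
  rw [e1]
  exact h1

theorem θG_indep (σ : Scale) : AlgebraicIndependent (Pool.Agent.N778.AF.base σ) (fun i => cst σ (θG i)) :=
  indep_inf σ θG_meas

theorem θG_indepQ : AlgebraicIndependent ℚ θG := by
  refine algebraicIndependent_of_finite_type fun t ht => ?_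
  have h1 := Pool.Agent.N778.EM.algInd_Q (θG_meas ht.toFinset).algInd
  have h2 := h1.comp (fun i : t => (⟨i.1, ht.mem_toFinset.2 i.2⟩ : ht.toFinset)) (by
    intro a b hab
    exact Subtype.ext (congrArg (fun z : ht.toFinset => (z : Gs ⊕ BG)) hab))
  exact h2

/-- centres and leaves -/
noncomputable def UG : ℚ ⊕ Gs → ℝ := Sum.elim (fun a => Real.Gamma a) (fun p => gu p.1.1 (p.1.2 : ℝ))

theorem EA_star (p : Gs) :
    EA (p.1.1 : ℝ) 1 (p.1.2 : ℝ) ∈ clF ({UG (Sum.inl p.1.1), UG (Sum.inr p)} ∪ {Real.exp 1}) :=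
  EA_one_mem p.2.1.1 p.2.2 (subset_clF _ (Or.inr rfl)) (subset_clF _ (Or.inl (Or.inl rfl)))
    (subset_clF _ (Or.inl (Or.inr rfl)))

theorem starG_scale (σ : Scale) : ∃ C : Set (ℚ ⊕ Gs),
    (∀ p q, p ∉ C → q ∉ C → Sum.elim id (fun p : Gs => p.1.1) p = Sum.elim id (fun p : Gs => p.1.1) q → p = q) ∧
      AlgebraicIndependent (Pool.Agent.N778.AF.base σ)
        (Sum.elim (fun p : C => cst σ (UG p.1)) (fun o : BG => cst σ (bg o))) := by
  have h0 : AlgebraicIndependent (Pool.Agent.N778.AF.base σ)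
      (Sum.elim (fun p : Gs => cst σ (EA (p.1.1 : ℝ) 1 (p.1.2 : ℝ))) (fun o : BG => cst σ (bg o))) := by
    have e : (Sum.elim (fun p : Gs => cst σ (EA (p.1.1 : ℝ) 1 (p.1.2 : ℝ))) (fun o : BG => cst σ (bg o))) =
        fun i => cst σ (θG i) := by
      funext i
      rcases i with p | o <;> rfl
    rw [e]
    exact θG_indep σ
  refine star_indep (fun p : Gs => p.1.1) (U := fun p => cst σ (UG p)) h0 fun p => ?_
  show _ ∈ clA σ _
  refine cst_mem_of σ (EA_star p) ?_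
  rintro t ((rfl | rfl) | rfl)
  · exact subset_clA σ _ (Or.inl (Or.inl rfl))
  · exact subset_clA σ _ (Or.inl (Or.inr rfl))
  · exact subset_clA σ _ (Or.inr ⟨none, rfl⟩)

theorem starG_Q : ∃ C : Set (ℚ ⊕ Gs),
    (∀ p q, p ∉ C → q ∉ C → Sum.elim id (fun p : Gs => p.1.1) p = Sum.elim id (fun p : Gs => p.1.1) q → p = q) ∧
      AlgebraicIndependent ℚ (Sum.elim (fun p : C => UG p.1) bg) := by
  refine star_indep (fun p : Gs => p.1.1) (U := UG) θG_indepQ fun p => ?_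
  have h1 := EA_star p
  refine (clF_mono ?_ : clF _ ≤ clF ({UG (Sum.inl p.1.1), UG (Sum.inr p)} ∪ range bg)) h1
  rintro z (h | rfl)
  · exact Or.inl h
  · exact Or.inr ⟨none, rfl⟩

end Pool.Agent.N778.CH
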