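import Pool.Agent.N778.XE.Meas
import Pool.Agent.N778.CH.ScaleB
import Pool.Agent.N778.CH.Block

/-!
# At every scale at most one exception for every logarithm
-/

set_option autoImplicit false

open Set

namespace Pool.Agent.N778.CH

open MvPolynomial
open Pool.Agent.N778.AF (Scale base AK cst NS NS_of clA subset_clA)
open Pool.Agent.N778.EM (MeasF EE_meas_X)
open Pool.Agent.N778.XE (JI EE_mem_sub)
open Pool.Agent.R352.E (EE)

/-- positive rational numbers -/
abbrev QP : Type := {q : ℚ // 0 < q}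

/-- `e` and the numbers `E_(l+1)(x)` -/
noncomputable def EV : Option (ℕ × QP) → ℝ
  | none => Real.exp 1
  | some p => EE (p.1 + 1) ((p.2.1 : ℚ) : ℝ)

theorem EV_meas (T : Finset (Option (ℕ × QP))) : MeasF (fun i : T => EV i) := by
  classical
  let J : ℕ := T.sup (fun i => i.elim 0 (fun p => p.1)) + 1
  let X : Finset ℚ := T.image (fun i => i.elim 1 (fun p => p.2.1))
  have hX : ∀ x ∈ X, 0 < x := by
    intro x hx
    obtain ⟨i, hi, rfl⟩ := Finset.mem_image.1 hx
    rcases i with _ | p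
    · exact one_pos
    · exact p.2.2
  have hJ : ∀ p : ℕ × QP, some p ∈ T → p.1 < J := fun p hp =>
    Nat.lt_succ_of_le (Finset.le_sup (f := fun i : Option (ℕ × QP) => i.elim 0 (fun p => p.1)) hp)
  have hXm : ∀ p : ℕ × QP, some p ∈ T → p.2.1 ∈ X := fun p hp => Finset.mem_image.2 ⟨some p, hp, rfl⟩
  let g : T → Fin 1 ⊕ (Fin J × X) := fun i => match i with
    | ⟨none, _⟩ => Sum.inl 0
    | ⟨some p, hp⟩ => Sum.inr (⟨p.1, hJ p hp⟩, ⟨p.2.1, hXm p hp⟩)
  have hg : Function.Injective g := by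
    rintro ⟨_ | p, hp⟩ ⟨_ | q, hq⟩ h
    · rfl
    · exact absurd h (by simp [g])
    · exact absurd h (by simp [g])
    · have h1 := Sum.inr_injective h
      have h2 : p.1 = q.1 := congrArg (fun z : Fin J × X => (z.1 : ℕ)) h1
      have h3 : p.2.1 = q.2.1 := congrArg (fun z : Fin J × X => (z.2 : ℚ)) h1
      have h4 : p = q := Prod.ext h2 (Subtype.ext h3)
      subst h4
      rfl
  have h1 := (EE_meas_X J X hX).comp g hg
  have e : (fun i : T => EV i) = (Sum.elim (fun _ : Fin 1 => Real.exp 1)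
      (fun p : Fin J × X => EE (p.1 + 1) ((p.2 : ℚ) : ℝ))) ∘ g := by
    funext i
    rcases i with ⟨_ | p, hp⟩ <;> rfl
  rw [e]
  exact h1

theorem EV_indep (σ : Scale) : AlgebraicIndependent (base σ) (fun i => cst σ (EV i)) := indep_inf σ EV_meas

/-- rational numbers which are positive and not `1` -/
abbrev Q1 : Type := {q : ℚ // 0 < q ∧ q ≠ 1}

/-- `log b` and the integrals -/
noncomputable def LV (x : ℝ) (b : ℝ) : ℕ → ℝ
  | 0 => Real.log b
  | l + 1 => JI l x (Real.log b)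

theorem LV_scale (x : QP) (σ : Scale) : ∃ C : Q1 → Set ℕ, (∀ b, (C b)ᶜ.Subsingleton) ∧
    AlgebraicIndependent (base σ) (Sum.elim (fun p : {p : Q1 × ℕ // p.2 ∈ C p.1} => cst σ (LV (x.1 : ℝ) (p.1.1.1 : ℝ) p.1.2))
      (fun i : Option ℕ => cst σ (EV (i.map fun l => (l, x))))) := by
  classical
  have hx : (0 : ℝ) < (x.1 : ℝ) := by exact_mod_cast x.2
  let g : (Q1 × ℕ) ⊕ Option ℕ → Option (ℕ × QP) := Sum.elim
    (fun p => some (p.2, ⟨x.1 * p.1.1, mul_pos x.2 p.1.2.1⟩)) (fun i => i.map fun l => (l, x))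
  have hg : Function.Injective g := by
    rintro (⟨b, k⟩ | (_ | l)) (⟨b', k'⟩ | (_ | l')) h
    · have h0 := Option.some_injective _ h
      have h1 : x.1 * b.1 = x.1 * b'.1 := congrArg (fun z : ℕ × QP => z.2.1) h0
      have h2 : k = k' := congrArg (fun z : ℕ × QP => z.1) h0
      have h3 := Subtype.ext (mul_left_cancel₀ x.2.ne' h1)
      subst h3 h2
      rfl
    · exact absurd h (by simp [g])
    · exfalso
      have h0 := Option.some_injective _ h
      have h1 : x.1 * b.1 = x.1 := congrArg (fun z : ℕ × QP => z.2.1) h0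
      exact b.2.2 (mul_left_cancel₀ x.2.ne' (by rw [h1, mul_one]))
    · exact absurd h (by simp [g])
    · rfl
    · exact absurd h (by simp [g])
    · exfalso
      have h0 := Option.some_injective _ h
      have h1 : x.1 = x.1 * b'.1 := congrArg (fun z : ℕ × QP => z.2.1) h0
      exact b'.2.2 (mul_left_cancel₀ x.2.ne' (by rw [← h1, mul_one]))
    · exact absurd h (by simp [g])
    · have h0 := Option.some_injective _ h
      have h2 : l = l' := congrArg (fun z : ℕ × QP => z.1) h0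
      subst h2
      rfl
  have hs := (EV_indep σ).comp g hg
  have hs2 : AlgebraicIndependent (base σ) (Sum.elim
      (fun p : Q1 × ℕ => cst σ (EE (p.2 + 1) ((x.1 : ℝ) * (p.1.1 : ℝ))))
      (fun i : Option ℕ => cst σ (EV (i.map fun l => (l, x))))) := by
    have e : (Sum.elim (fun p : Q1 × ℕ => cst σ (EE (p.2 + 1) ((x.1 : ℝ) * (p.1.1 : ℝ))))
      (fun i : Option ℕ => cst σ (EV (i.map fun l => (l, x))))) = (fun i => cst σ (EV i)) ∘ g := by
      funext i
      rcases i with p | l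
      · show cst σ (EE (p.2 + 1) ((x.1 : ℝ) * (p.1.1 : ℝ))) = cst σ (EE (p.2 + 1) (((x.1 * p.1.1 : ℚ)) : ℝ))
        rw [Rat.cast_mul]
      · rfl
    rw [e]
    exact hs
  refine block_indep (R := base σ) (s := fun (b : Q1) k => cst σ (EE (k + 1) ((x.1 : ℝ) * (b.1 : ℝ))))
    (u := fun (b : Q1) k => cst σ (LV (x.1 : ℝ) (b.1 : ℝ) k)) hs2 (fun b k => ?_)
  have hb : (0 : ℝ) < (b.1 : ℝ) := by exact_mod_cast b.2.1
  have h1 := EE_mem_sub (cst σ) (clA σ ((fun k => cst σ (LV (x.1 : ℝ) (b.1 : ℝ) k)) '' Iic (k + 1) ∪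
        range fun i : Option ℕ => cst σ (EV (i.map fun l => (l, x))))) hx (β := Real.log (b.1 : ℝ))
        (subset_clA σ _ (Or.inl ⟨0, Nat.zero_le _, rfl⟩)) k (fun l _ => subset_clA σ _ (Or.inr ⟨some l, rfl⟩))
        (fun l hl => subset_clA σ _ (Or.inl ⟨l + 1, Nat.succ_le_succ hl, rfl⟩)) k le_rfl
  rw [Real.exp_log hb] at h1
  exact h1

/-- **At every scale at most one exception for every logarithm** -/
theorem scale_logs (x : QP) (m : ℕ) (T : Finset (ℚ × ℕ)) (hT : ∀ p ∈ T, 0 < p.1 ∧ p.1 ≠ 1) (D : ℕ) :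
    ∃ κ : ℕ, ∃ c : ℝ, 0 < c ∧ ∀ H : ℝ, 1 ≤ H → ∃ N : Finset (ℚ × ℕ), N ⊆ T ∧
      (∀ p ∈ N, ∀ q ∈ N, p.1 = q.1 → p = q) ∧
        Good (Sum.elim (fun i : Fin (m + 1) => EV (if i = 0 then none else some ((i : ℕ) - 1, x)))
          (fun p : {p // p ∈ T ∧ p ∉ N} => LV (x.1 : ℝ) (p.1.1 : ℝ) p.1.2)) D (c / H ^ κ) H := by
  classical
  refine scale_of (fun p : ℚ × ℕ => LV (x.1 : ℝ) (p.1 : ℝ) p.2) _ Prod.fst T (fun σ => ?_) D
  obtain ⟨C, hC, hC2⟩ := LV_scale x σ
  refine ⟨{p | ∀ h : 0 < p.1 ∧ p.1 ≠ 1, p.2 ∈ C ⟨p.1, h⟩}, ?_, ?_⟩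
  · rintro ⟨b, k⟩ hp ⟨b', k'⟩ hq h1 h2 (h3 : b = b')
    subst h3
    simp only [Set.mem_ofPred_eq, not_forall] at h1 h2
    obtain ⟨h4, h5⟩ := h1
    obtain ⟨_, h6⟩ := h2
    rw [hC ⟨b, h4⟩ h5 h6]
  · let g : Fin (m + 1) ⊕ {p : ℚ × ℕ // p ∈ T ∧ p ∈ {p : ℚ × ℕ | ∀ h : 0 < p.1 ∧ p.1 ≠ 1, p.2 ∈ C ⟨p.1, h⟩}} →
        {p : Q1 × ℕ // p.2 ∈ C p.1} ⊕ Option ℕ := Sum.elim
      (fun i => Sum.inr (if i = 0 then none else some ((i : ℕ) - 1)))
      (fun p => Sum.inl ⟨(⟨p.1.1, hT _ p.2.1⟩, p.1.2), p.2.2 _⟩)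
    have hg : Function.Injective g := by
      rintro (i | p) (j | q) h
      · have h1 : (if i = 0 then none else some ((i : ℕ) - 1)) = (if j = 0 then none else some ((j : ℕ) - 1)) :=
          Sum.inr_injective h
        by_cases hi : i = 0
        · by_cases hj : j = 0
          · rw [hi, hj]
          · rw [if_pos hi, if_neg hj] at h1
            exact absurd h1 (by simp)
        · by_cases hj : j = 0
          · rw [if_neg hi, if_pos hj] at h1
            exact absurd h1 (by simp)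
          · rw [if_neg hi, if_neg hj] at h1
            have h2 : (i : ℕ) - 1 = (j : ℕ) - 1 := Option.some_injective _ h1
            have h3 : (i : ℕ) ≠ 0 := fun h => hi (Fin.ext h)
            have h4 : (j : ℕ) ≠ 0 := fun h => hj (Fin.ext h)
            have h5 : (i : ℕ) = j := by omega
            rw [Fin.ext h5]
      · exact absurd h (by simp [g])
      · exact absurd h (by simp [g])
      · have h1 := Sum.inl_injective h
        have h2 : p.1.1 = q.1.1 := congrArg (fun z : {p : Q1 × ℕ // p.2 ∈ C p.1} => z.1.1.1) h1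
        have h3 : p.1.2 = q.1.2 := congrArg (fun z : {p : Q1 × ℕ // p.2 ∈ C p.1} => z.1.2) h1
        exact congrArg Sum.inr (Subtype.ext (Prod.ext h2 h3))
    have h1 := hC2.comp g hg
    convert h1 using 1
    funext i
    rcases i with i | p
    · show cst σ (EV (if i = 0 then none else some ((i : ℕ) - 1, x))) =
        cst σ (EV (Option.map (fun l => (l, x)) (if i = 0 then none else some ((i : ℕ) - 1))))
      split_ifs <;> rfl
    · rfl

end Pool.Agent.N778.CH
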