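import Pool.Agent.N778.AF.Big2
import Pool.Agent.N778.CH.ScaleB
import Pool.Agent.N778.CH.Star

/-!
# Incomplete zeta integrals: at most one exception for every odd zeta value
-/

set_option autoImplicit false

open Set

namespace Pool.Agent.N778.CH

open MvPolynomial
open Pool.Agent.N778.AF (Scale AK cst NS NS_of clA subset_clA cst_mem_of Bv BOK θB eB θB_eB MS base_meas)
open Pool.Agent.N778.EM (MeasF)
open Pool.Agent.R352.E (clF mem_clF subset_clF clF_mono clF_le zt zt_even)
open Pool.Agent.R352.Q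

/-- the pairs `(k, x)`, `k ≥ 2`, `x > 0` -/
abbrev Lf : Type := {p : ℕ × ℚ // 2 ≤ p.1 ∧ 0 < p.2}

/-- the names of the base -/
abbrev Bs : Type := Option {b : ℚ × ℕ × ℚ // BOK b}

/-- `e` and the values of E-functions -/
noncomputable def bv (o : Bs) : ℝ := o.elim (Real.exp 1) (fun b => Bv b)

/-- the full independent family -/
noncomputable def θZ : Lf ⊕ Bs → ℝ := Sum.elim (fun p => Zk p.1.1 (p.1.2 : ℝ)) bv

theorem θZ_meas (T : Finset (Lf ⊕ Bs)) : MeasF (fun i : T => θZ i) := by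
  classical
  let S : Finset (ℕ × ℚ) := T.biUnion fun s => Sum.elim (fun p : Lf => {p.1}) (fun _ => ∅) s
  let B : Finset (ℚ × ℕ × ℚ) := T.biUnion fun s => Sum.elim (fun _ => ∅) (fun o : Bs => o.elim ∅ (fun b => {b.1})) s
  have hS : ∀ p : Lf, Sum.inl p ∈ T → p.1 ∈ S := fun j hj =>
    Finset.mem_biUnion.2 ⟨Sum.inl j, hj, by simp⟩
  have hB : ∀ b : {b // BOK b}, Sum.inr (some b) ∈ T → b.1 ∈ B := fun b hb =>
    Finset.mem_biUnion.2 ⟨Sum.inr (some b), hb, by simp⟩
  have hS' : ∀ p ∈ S, 2 ≤ p.1 ∧ 0 < p.2 := by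
    intro j hj
    obtain ⟨s, -, hs⟩ := Finset.mem_biUnion.1 hj
    rcases s with s | s
    · simp only [Sum.elim_inl, Finset.mem_singleton] at hs
      rw [hs]
      exact s.2
    · simp at hs
  have hB' : ∀ b ∈ B, BOK b := by
    intro b hb
    obtain ⟨s, -, hs⟩ := Finset.mem_biUnion.1 hb
    rcases s with s | s
    · simp at hs
    · cases s with
      | none => simp at hs
      | some s =>
        simp only [Sum.elim_inr, Option.elim, Finset.mem_singleton] at hs
        rw [hs]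
        exact s.2
  let g : T → Fin (B.card + 1) ⊕ S := fun s =>
    match s with
    | ⟨Sum.inl p, hp⟩ => Sum.inr ⟨p.1, hS p hp⟩
    | ⟨Sum.inr none, _⟩ => Sum.inl (eB B none)
    | ⟨Sum.inr (some b), hb⟩ => Sum.inl (eB B (some ⟨b.1, hB b hb⟩))
  have hg : Function.Injective g := by
    rintro ⟨a | (_ | a), ha⟩ ⟨b | (_ | b), hb⟩ hab
    · have h1 := Sum.inr_injective hab
      exact Subtype.ext (congrArg Sum.inl (Subtype.ext (congrArg (fun z : S => (z : ℕ × ℚ)) h1)))
    · exact absurd hab (by simp [g])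
    · exact absurd hab (by simp [g])
    · exact absurd hab (by simp [g])
    · rfl
    · have h1 := (eB B).injective (Sum.inl_injective hab)
      exact absurd h1 (by simp)
    · exact absurd hab (by simp [g])
    · have h1 := (eB B).injective (Sum.inl_injective hab)
      exact absurd h1 (by simp)
    · have h1 := Option.some_injective _ ((eB B).injective (Sum.inl_injective hab))
      have h2 : a = b := Subtype.ext (congrArg (fun z : B => (z : ℚ × ℕ × ℚ)) h1)
      subst h2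
      rfl
  have h1 := (base_meas B hB' S hS').comp g hg
  have e : (fun i : T => θZ i) = (Sum.elim (θB B) (fun p : S => Zk (p : ℕ × ℚ).1 (((p : ℕ × ℚ).2 : ℚ) : ℝ))) ∘ g := by
    funext i
    rcases i with ⟨a | (_ | a), ha⟩
    · rfl
    · exact (congrFun (θB_eB B) none).symm
    · exact (congrFun (θB_eB B) (some ⟨a.1, hB a ha⟩)).symm
  rw [e]
  exact h1

theorem θZ_indep (σ : Scale) : AlgebraicIndependent (Pool.Agent.N778.AF.base σ) (fun i => cst σ (θZ i)) :=
  indep_inf σ θZ_meas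

theorem θZ_indepQ : AlgebraicIndependent ℚ θZ := by
  refine algebraicIndependent_of_finite_type fun t ht => ?_
  have h1 := Pool.Agent.N778.EM.algInd_Q (θZ_meas ht.toFinset).algInd
  have h2 := h1.comp (fun i : t => (⟨i.1, ht.mem_toFinset.2 i.2⟩ : ht.toFinset)) (by
    intro a b hab
    exact Subtype.ext (congrArg (fun z : ht.toFinset => (z : Lf ⊕ Bs)) hab))
  exact h2

/-- the block of a leaf -/
def bl (p : Lf) : ℕ := if Even p.1.1 then 0 else p.1.1

/-- the centre of a block -/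
noncomputable def ctr (b : ℕ) : ℝ := if b = 0 then Real.pi else zt b

/-- centres and leaves -/
noncomputable def UZ : ℕ ⊕ Lf → ℝ := Sum.elim ctr (fun p => Rk p.1.1 (p.1.2 : ℝ))

theorem Zk_star (p : Lf) : Zk p.1.1 (p.1.2 : ℝ) ∈ clF {UZ (Sum.inl (bl p)), UZ (Sum.inr p)} := by
  refine Zk_mem ?_ (subset_clF _ (Or.inr rfl))
  have h1 : ctr (bl p) ∈ clF {UZ (Sum.inl (bl p)), UZ (Sum.inr p)} := subset_clF _ (Or.inl rfl)
  by_cases hp : Even p.1.1
  · have h2 : bl p = 0 := if_pos hp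
    rw [h2, ctr, if_pos rfl] at h1
    obtain ⟨k, hk⟩ := hp
    have h3 : p.1.1 = 2 * k := by omega
    have h4 := p.2.1
    rw [h3]
    rw [h2]
    exact zt_even h1 k (by omega)
  · have h2 : bl p = p.1.1 := if_neg hp
    have h4 := p.2.1
    have h3 : ctr (bl p) = zt p.1.1 := by
      rw [h2, ctr, if_neg (by omega)]
    rw [← h3]
    exact h1

theorem star_scale (σ : Scale) : ∃ C : Set (ℕ ⊕ Lf),
    (∀ p q, p ∉ C → q ∉ C → Sum.elim id bl p = Sum.elim id bl q → p = q) ∧
      AlgebraicIndependent (Pool.Agent.N778.AF.base σ)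
        (Sum.elim (fun p : C => cst σ (UZ p.1)) (fun o : Bs => cst σ (bv o))) := by
  have h0 : AlgebraicIndependent (Pool.Agent.N778.AF.base σ)
      (Sum.elim (fun p : Lf => cst σ (Zk p.1.1 (p.1.2 : ℝ))) (fun o : Bs => cst σ (bv o))) := by
    have e : (Sum.elim (fun p : Lf => cst σ (Zk p.1.1 (p.1.2 : ℝ))) (fun o : Bs => cst σ (bv o))) =
        fun i => cst σ (θZ i) := by
      funext i
      rcases i with p | o <;> rfl
    rw [e]
    exact θZ_indep σ
  refine star_indep bl (U := fun p => cst σ (UZ p)) h0 fun p => ?_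
  show _ ∈ clA σ _
  refine cst_mem_of σ (Zk_star p) ?_
  rintro t (rfl | rfl)
  · exact subset_clA σ _ (Or.inl (Or.inl rfl))
  · exact subset_clA σ _ (Or.inl (Or.inr rfl))

theorem star_Q : ∃ C : Set (ℕ ⊕ Lf),
    (∀ p q, p ∉ C → q ∉ C → Sum.elim id bl p = Sum.elim id bl q → p = q) ∧
      AlgebraicIndependent ℚ (Sum.elim (fun p : C => UZ p.1) bv) := by
  refine star_indep bl (U := UZ) θZ_indepQ fun p => ?_
  have h1 : Zk p.1.1 (p.1.2 : ℝ) ∈ clF {UZ (Sum.inl (bl p)), UZ (Sum.inr p)} := Zk_star p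
  exact clF_mono subset_union_left h1

/-- the names of the numbers: `none` is `π`, `some (k, x)` is `R_k(x)` -/
abbrev NZ : Type := Option (ℕ × ℚ)

/-- the names which are considered -/
def VZ : NZ → Prop
  | none => True
  | some p => 2 ≤ p.1 ∧ 0 ≤ p.2 ∧ (p.2 = 0 → ¬ Even p.1)

/-- the blocks -/
def blk : NZ → ℕ
  | none => 0
  | some p => if Even p.1 then 0 else p.1

/-- the values -/
noncomputable def vz : NZ → ℝ
  | none => Real.pi
  | some p => if p.2 = 0 then zt p.1 else Rk p.1 (p.2 : ℝ)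

/-- the translation of the names -/
def enc : NZ → ℕ ⊕ Lf
  | none => Sum.inl 0
  | some p => if h : 2 ≤ p.1 ∧ 0 < p.2 then Sum.inr ⟨p, h⟩ else Sum.inl p.1

theorem enc_zero {p : ℕ × ℚ} (h : p.2 = 0) : enc (some p) = Sum.inl p.1 := by
  rw [enc, dif_neg]
  rintro ⟨_, h2⟩
  exact absurd h h2.ne'

theorem enc_pos {p : ℕ × ℚ} (h : 2 ≤ p.1 ∧ 0 < p.2) : enc (some p) = Sum.inr ⟨p, h⟩ := by
  rw [enc, dif_pos h]

theorem enc_inj {p q : NZ} (hp : VZ p) (hq : VZ q) (h : enc p = enc q) : p = q := by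
  rcases p with _ | p <;> rcases q with _ | q
  · rfl
  · obtain ⟨h1, h2, h3⟩ := hq
    rcases h2.eq_or_lt with h4 | h4
    · rw [enc_zero h4.symm] at h
      have h5 : 0 = q.1 := Sum.inl_injective h
      omega
    · rw [enc_pos ⟨h1, h4⟩] at h
      exact absurd h (by simp [enc])
  · obtain ⟨h1, h2, h3⟩ := hp
    rcases h2.eq_or_lt with h4 | h4
    · rw [enc_zero h4.symm] at h
      have h5 : p.1 = 0 := Sum.inl_injective h
      omega
    · rw [enc_pos ⟨h1, h4⟩] at h
      exact absurd h (by simp [enc])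
  · obtain ⟨h1, h2, h3⟩ := hp
    obtain ⟨h1', h2', h3'⟩ := hq
    rcases h2.eq_or_lt with h4 | h4
    · rcases h2'.eq_or_lt with h5 | h5
      · rw [enc_zero h4.symm, enc_zero h5.symm] at h
        have h6 : p.1 = q.1 := Sum.inl_injective h
        exact congrArg some (Prod.ext h6 (h4.symm.trans h5))
      · rw [enc_zero h4.symm, enc_pos ⟨h1', h5⟩] at h
        exact absurd h (by simp)
    · rcases h2'.eq_or_lt with h5 | h5
      · rw [enc_zero h5.symm, enc_pos ⟨h1, h4⟩] at h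
        exact absurd h (by simp)
      · rw [enc_pos ⟨h1, h4⟩, enc_pos ⟨h1', h5⟩] at h
        exact congrArg some (congrArg (fun z : Lf => z.1) (Sum.inr_injective h))

theorem enc_blk {p : NZ} (hp : VZ p) : Sum.elim id bl (enc p) = blk p := by
  rcases p with _ | p
  · rfl
  · obtain ⟨h1, h2, h3⟩ := hp
    rcases h2.eq_or_lt with h4 | h4
    · rw [enc_zero h4.symm, blk, if_neg (h3 h4.symm)]
      rfl
    · rw [enc_pos ⟨h1, h4⟩]
      rfl

theorem enc_val {p : NZ} (hp : VZ p) : UZ (enc p) = vz p := by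
  rcases p with _ | p
  · show ctr 0 = _
    rw [ctr, if_pos rfl, vz]
  · obtain ⟨h1, h2, h3⟩ := hp
    rcases h2.eq_or_lt with h4 | h4
    · rw [enc_zero h4.symm, vz, if_pos h4.symm]
      show ctr p.1 = _
      rw [ctr, if_neg (by omega)]
    · rw [enc_pos ⟨h1, h4⟩, vz, if_neg h4.ne']
      rfl

/-- **at every scale at most one exception in every block** -/
theorem scale_zeta (T : Finset NZ) (hT : ∀ p ∈ T, VZ p) (B : Finset (ℚ × ℕ × ℚ)) (hB : ∀ b ∈ B, BOK b) (D : ℕ) :
    ∃ κ : ℕ, ∃ c : ℝ, 0 < c ∧ ∀ H : ℝ, 1 ≤ H → ∃ N : Finset NZ, N ⊆ T ∧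
      (∀ p ∈ N, ∀ q ∈ N, blk p = blk q → p = q) ∧
        Good (Sum.elim (fun o : Option B => o.elim (Real.exp 1) (fun b => Bv b))
          (fun p : {p // p ∈ T ∧ p ∉ N} => vz p.1)) D (c / H ^ κ) H := by
  classical
  refine scale_of vz _ blk T (fun σ => ?_) D
  obtain ⟨C, hC, hC2⟩ := star_scale σ
  refine ⟨enc ⁻¹' C, fun p hp q hq h1 h2 h3 => ?_, ?_⟩
  · refine enc_inj (hT p hp) (hT q hq) (hC _ _ h1 h2 ?_)
    rw [enc_blk (hT p hp), enc_blk (hT q hq), h3]
  · let g : Option B ⊕ {p // p ∈ T ∧ p ∈ enc ⁻¹' C} → C ⊕ Bs := Sum.elim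
      (fun o => Sum.inr (o.map fun b => (⟨b.1, hB _ b.2⟩ : {b // BOK b}))) (fun p => Sum.inl ⟨enc p.1, p.2.2⟩)
    have hg : Function.Injective g := by
      rintro (o | p) (o' | q) h
      · have h1 := Option.map_injective (f := fun b : B => (⟨b.1, hB _ b.2⟩ : {b // BOK b})) (by
          intro a b hab
          exact Subtype.ext (congrArg (fun z : {b // BOK b} => (z : ℚ × ℕ × ℚ)) hab)) (Sum.inr_injective h)
        rw [h1]
      · exact absurd h (by simp [g])
      · exact absurd h (by simp [g])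
      · have h1 : enc p.1 = enc q.1 := congrArg (fun z : C => z.1) (Sum.inl_injective h)
        exact congrArg Sum.inr (Subtype.ext (enc_inj (hT _ p.2.1) (hT _ q.2.1) h1))
    have h1 := hC2.comp g hg
    have e : (Sum.elim (fun o : Option B => cst σ (o.elim (Real.exp 1) (fun b => Bv b)))
        (fun p : {p // p ∈ T ∧ p ∈ enc ⁻¹' C} => cst σ (vz p.1))) =
        (Sum.elim (fun p : C => cst σ (UZ p.1)) (fun o : Bs => cst σ (bv o))) ∘ g := by
      funext i
      rcases i with (_ | b) | p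
      · rfl
      · rfl
      · show cst σ (vz p.1) = cst σ (UZ (enc p.1))
        rw [enc_val (hT _ p.2.1)]
    rw [e]
    exact h1

/-- **at most one exception in every block** -/
theorem all_zeta : ∃ N : Set NZ, (∀ p ∈ N, VZ p) ∧ (∀ p ∈ N, ∀ q ∈ N, blk p = blk q → p = q) ∧
    AlgebraicIndependent (IntermediateField.adjoin ℚ MS) (fun p : {p // VZ p ∧ p ∉ N} => vz p.1) := by
  classical
  obtain ⟨C, hC, hC2⟩ := star_Q
  refine ⟨{p | VZ p ∧ enc p ∉ C}, fun p hp => hp.1, fun p hp q hq h3 => ?_, ?_⟩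
  · refine enc_inj hp.1 hq.1 (hC _ _ hp.2 hq.2 ?_)
    rw [enc_blk hp.1, enc_blk hq.1, h3]
  · have hm : ∀ p : {p // VZ p ∧ p ∉ {p | VZ p ∧ enc p ∉ C}}, enc p.1 ∈ C := by
      intro p
      by_contra h
      exact p.2.2 ⟨p.2.1, h⟩
    let g : {p // VZ p ∧ p ∉ {p | VZ p ∧ enc p ∉ C}} ⊕ Bs → C ⊕ Bs := Sum.map (fun p => ⟨enc p.1, hm p⟩) id
    have hg : Function.Injective g := by
      refine Function.Injective.sumMap ?_ Function.injective_id
      intro p q h
      exact Subtype.ext (enc_inj p.2.1 q.2.1 (congrArg (fun z : C => z.1) h))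
    have h1 := hC2.comp g hg
    have e : (Sum.elim (fun p : {p // VZ p ∧ p ∉ {p | VZ p ∧ enc p ∉ C}} => vz p.1) bv) =
        (Sum.elim (fun p : C => UZ p.1) bv) ∘ g := by
      funext i
      rcases i with p | o
      · exact (enc_val p.2.1).symm
      · rfl
    rw [← e] at h1
    have h3 := (AlgebraicIndependent.sumElim_iff.1 h1).2
    exact IntermediateField.algebraicIndependent_adjoin_iff.2 h3

end Pool.Agent.N778.CH
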